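import Pool.Agent.Lib.MP_646cd9_ag.Defs

namespace Pool.Agent.Lib.MP_646cd9_ag

open MvPolynomial

/-! ### Sanity checks on the list of exponents -/

/-- The order of the problem on exponents of total degree `5`. -/
def expLt (a b : Fin 3 → ℕ) : Prop :=
  a 0 + a 1 < b 0 + b 1 ∨ (a 0 + a 1 = b 0 + b 1 ∧ a 0 < b 0) ∨
    (a 0 = b 0 ∧ a 1 = b 1 ∧ a 2 < b 2)

instance (a b : Fin 3 → ℕ) : Decidable (expLt a b) := by unfold expLt; infer_instance

theorem expo_decreasing : ∀ k l : Fin 21, k < l → expLt (expo l) (expo k) := by decide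

theorem expo_degree : ∀ k : Fin 21, expo k 0 + expo k 1 + expo k 2 = 5 := by decide

theorem expo_complete_aux : ∀ a b : Fin 6, (a : ℕ) + b ≤ 5 →
    ∃ l : Fin 21, expo l 0 = a ∧ expo l 1 = b ∧ expo l 2 = 5 - a - b := by decide

theorem expo_complete (a : Fin 3 → ℕ) (h : a 0 + a 1 + a 2 = 5) : ∃ l : Fin 21, expo l = a := by
  obtain ⟨l, h0, h1, h2⟩ := expo_complete_aux ⟨a 0, by omega⟩ ⟨a 1, by omega⟩ (by simp; omega)
  refine ⟨l, ?_⟩
  funext i
  fin_cases i
  · simpa using h0
  · simpa using h1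
  · simp only [Fin.reduceFinMk]
    rw [h2]
    simp only
    omega

theorem expo_injective : Function.Injective expo := by
  intro k l h
  by_contra hne
  rcases lt_or_gt_of_ne hne with h1 | h1
  · have := expo_decreasing k l h1
    rw [h] at this
    unfold expLt at this
    omega
  · have := expo_decreasing l k h1
    rw [h] at this
    unfold expLt at this
    omega

/-! ### Monomials -/

/-- exponents as finitely supported functions -/
noncomputable def fexp (l : Fin 21) : Fin 3 →₀ ℕ := Finsupp.equivFunOnFinite.symm (expo l)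

theorem fexp_apply (l : Fin 21) (i : Fin 3) : fexp l i = expo l i := rfl

theorem fexp_injective : Function.Injective fexp := by
  intro k l h
  apply expo_injective
  funext i
  rw [← fexp_apply, ← fexp_apply, h]

theorem monVal_X {R : Type*} [CommSemiring R] (l : Fin 21) :
    monVal (X : Fin 3 → MvPolynomial (Fin 3) R) l = monomial (fexp l) 1 := by
  unfold monVal
  rw [MvPolynomial.monomial_eq]
  simp only [map_one, one_mul]
  rw [Finsupp.prod_fintype]
  · rfl
  · intro i; simp

theorem eval_monVal_X {R : Type*} [CommSemiring R] (x : Fin 3 → R) (l : Fin 21) :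
    eval x (monVal X l) = monVal x l := by
  unfold monVal
  simp

theorem eval_gramForm (A : Matrix (Fin 21) (Fin 21) ℝ) (x : Fin 3 → ℝ) :
    eval x (gramForm A) = quad A (monVal x) := by
  unfold gramForm quad
  simp only [map_sum, map_mul, eval_C, eval_monVal_X]

theorem monVal_zero (l : Fin 21) : monVal (0 : Fin 3 → ℝ) l = 0 := by
  unfold monVal
  rw [Fin.prod_univ_three]
  simp only [Pi.zero_apply]
  rw [← pow_add, ← pow_add, expo_degree]
  simp

theorem mon_indep (c : Fin 21 → ℝ) (h : ∀ x : Fin 3 → ℝ, ∑ l, c l * monVal x l = 0) : c = 0 := by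
  have h1 : (∑ l, C (c l) * monVal X l : MvPolynomial (Fin 3) ℝ) = 0 := by
    apply MvPolynomial.funext
    intro x
    simp only [map_sum, map_mul, eval_C, eval_monVal_X, map_zero]
    exact h x
  funext k
  have h2 := congrArg (coeff (fexp k)) h1
  simp only [monVal_X, C_mul_monomial, mul_one, coeff_sum, coeff_monomial, coeff_zero] at h2
  rw [Finset.sum_eq_single k] at h2
  · simpa using h2
  · intro b _ hb
    rw [if_neg]
    intro h
    exact hb (fexp_injective h)
  · simp

/-- homogeneity of Gram forms -/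
theorem gramForm_isHomogeneous (A : Matrix (Fin 21) (Fin 21) ℝ) :
    (gramForm A).IsHomogeneous 10 := by
  unfold gramForm
  apply IsHomogeneous.sum
  intro k _
  apply IsHomogeneous.sum
  intro l _
  have hk : ∀ k : Fin 21, (monVal X k : MvPolynomial (Fin 3) ℝ).IsHomogeneous 5 := by
    intro k
    rw [monVal_X]
    apply isHomogeneous_monomial
    rw [Finsupp.degree_eq_sum]
    rw [Fin.sum_univ_three]
    exact expo_degree k
  have := ((isHomogeneous_C (Fin 3) (A k l)).mul (hk k)).mul (hk l)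
  simpa using this

/-! ### The quadratic form -/

/-- The linear form `(A z)_n`. -/
def lin (A : Matrix (Fin 21) (Fin 21) ℝ) (n : Fin 21) (z : Fin 21 → ℝ) : ℝ :=
  ∑ l, A n l * z l

theorem quad_eq_sum_lin (A : Matrix (Fin 21) (Fin 21) ℝ) (z : Fin 21 → ℝ) :
    quad A z = ∑ k, z k * lin A k z := by
  unfold quad lin
  apply Finset.sum_congr rfl
  intro k _
  rw [Finset.mul_sum]
  apply Finset.sum_congr rfl
  intro l _
  ring

theorem lin_add_single (A : Matrix (Fin 21) (Fin 21) ℝ) (n m : Fin 21) (z : Fin 21 → ℝ) (t : ℝ) :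
    lin A n (z + Pi.single m t) = lin A n z + A n m * t := by
  unfold lin
  simp only [Pi.add_apply, mul_add, Finset.sum_add_distrib]
  congr 1
  rw [Finset.sum_eq_single m]
  · simp
  · intro b _ hb
    simp [hb]
  · simp

theorem quad_add_single {A : Matrix (Fin 21) (Fin 21) ℝ} (hA : A.IsSymm) (m : Fin 21)
    (z : Fin 21 → ℝ) (t : ℝ) :
    quad A (z + Pi.single m t) = quad A z + 2 * t * lin A m z + t ^ 2 * A m m := by
  rw [quad_eq_sum_lin, quad_eq_sum_lin]
  simp only [lin_add_single, Pi.add_apply, add_mul, Finset.sum_add_distrib]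
  have h1 : ∑ k, (Pi.single m t : Fin 21 → ℝ) k * (lin A k z + A k m * t)
      = t * (lin A m z + A m m * t) := by
    rw [Finset.sum_eq_single m]
    · simp
    · intro b _ hb
      simp [hb]
    · simp
  have h2 : ∑ k, z k * (lin A k z + A k m * t) = ∑ k, z k * lin A k z + t * lin A m z := by
    simp only [mul_add, Finset.sum_add_distrib]
    congr 1
    unfold lin
    rw [Finset.mul_sum]
    apply Finset.sum_congr rfl
    intro k _
    rw [hA.apply]
    ring
  rw [h1, h2]
  ring

/-- `A` is nonnegative at all real points above `T_j`. -/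
def Good (j : ℕ) (A : Matrix (Fin 21) (Fin 21) ℝ) : Prop :=
  ∀ (x : Fin 3 → ℝ) (z : Fin 21 → ℝ), (∀ l : Fin 21, (l : ℕ) ≤ j → z l = monVal x l) → 0 ≤ quad A z

theorem Good.perturb {j : ℕ} {A : Matrix (Fin 21) (Fin 21) ℝ} (hg : Good j A) (hA : A.IsSymm)
    {n : Fin 21} (hn : j < (n : ℕ)) {x : Fin 3 → ℝ} {z : Fin 21 → ℝ}
    (hz : ∀ l : Fin 21, (l : ℕ) ≤ j → z l = monVal x l) (t : ℝ) :
    0 ≤ quad A z + 2 * t * lin A n z + t ^ 2 * A n n := by
  rw [← quad_add_single hA]
  apply hg x
  intro l hl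
  have : l ≠ n := by
    rintro rfl
    omega
  simp [this, hz l hl]

theorem quadratic_aux {a b c : ℝ} (h : ∀ t : ℝ, 0 ≤ a + 2 * t * b + t ^ 2 * c) :
    b ^ 2 ≤ a * c ∧ 0 ≤ c := by
  have hd := discrim_le_zero (a := c) (b := 2 * b) (c := a) (by intro t; have := h t; nlinarith)
  unfold discrim at hd
  refine ⟨by nlinarith, ?_⟩
  by_contra hc
  push Not at hc
  have ha := h 0
  simp at ha
  have h1 : b ^ 2 ≤ a * c := by nlinarith
  have h2 : a * c ≤ 0 := mul_nonpos_of_nonneg_of_nonpos ha hc.le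
  have h3 : b = 0 := by nlinarith
  subst h3
  have h5 := h (Real.sqrt ((a + 1) / (-c)))
  rw [Real.sq_sqrt (by apply div_nonneg <;> linarith)] at h5
  have : (a + 1) / (-c) * c = -(a+1) := by
    have hc' : c ≠ 0 := hc.ne
    field_simp
  rw [this] at h5
  linarith

theorem Good.diag_nonneg {j : ℕ} {A : Matrix (Fin 21) (Fin 21) ℝ} (hg : Good j A) (hA : A.IsSymm)
    {n : Fin 21} (hn : j < (n : ℕ)) : 0 ≤ A n n :=
  (quadratic_aux (hg.perturb hA hn (x := 0) (z := 0) (by intro l _; rw [monVal_zero]; rfl))).2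

theorem Good.lin_sq_le {j : ℕ} {A : Matrix (Fin 21) (Fin 21) ℝ} (hg : Good j A) (hA : A.IsSymm)
    {n : Fin 21} (hn : j < (n : ℕ)) {x : Fin 3 → ℝ} {z : Fin 21 → ℝ}
    (hz : ∀ l : Fin 21, (l : ℕ) ≤ j → z l = monVal x l) :
    (lin A n z) ^ 2 ≤ quad A z * A n n :=
  (quadratic_aux (hg.perturb hA hn hz)).1

/-- A linear form vanishing above `T_j` is zero. -/
theorem lin_zero_of_vanish {j : ℕ} (c : Fin 21 → ℝ)
    (h : ∀ (x : Fin 3 → ℝ) (z : Fin 21 → ℝ), (∀ l : Fin 21, (l : ℕ) ≤ j → z l = monVal x l) →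
      ∑ l, c l * z l = 0) : c = 0 := by
  have h1 : ∀ l : Fin 21, j < (l : ℕ) → c l = 0 := by
    intro l hl
    have := h 0 (Pi.single l 1) (by
      intro k hk
      have : k ≠ l := by rintro rfl; omega
      rw [monVal_zero]
      simp [this])
    rw [Finset.sum_eq_single l] at this
    · simpa using this
    · intro b _ hb
      simp [hb]
    · simp
  apply mon_indep
  intro x
  exact h x (monVal x) (fun _ _ => rfl)

theorem Good.row_zero {j : ℕ} {A : Matrix (Fin 21) (Fin 21) ℝ} (hg : Good j A) (hA : A.IsSymm)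
    {n : Fin 21} (hn : j < (n : ℕ)) (h0 : A n n = 0) (l : Fin 21) : A n l = 0 := by
  have : A n = 0 := by
    apply lin_zero_of_vanish (j := j)
    intro x z hz
    have h1 := hg.lin_sq_le hA hn hz
    rw [h0, mul_zero] at h1
    have : lin A n z = 0 := by nlinarith [sq_nonneg (lin A n z)]
    exact this
  rw [this]
  rfl

end Pool.Agent.Lib.MP_646cd9_ag
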