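import Mathlib

/-!
# Positive semidefinite `2 × 2` univariate polynomial matrices are sums of squares
-/

namespace Pool.Agent.Lib.MP_646cd9_ag

open Polynomial Filter Topology

/-- nonnegativity of the matrix `[[a, b], [b, c]]` at all real points -/
def Psd2 (a b c : ℝ[X]) : Prop :=
  ∀ t : ℝ, 0 ≤ a.eval t ∧ 0 ≤ c.eval t ∧ (b.eval t) ^ 2 ≤ a.eval t * c.eval t

/-- `a + 2 b y + c y²` is a sum of squares of polynomials `u + v y` -/
def Sos2 (a b c : ℝ[X]) : Prop :=
  ∃ L : List (ℝ[X] × ℝ[X]), a = (L.map fun p => p.1 ^ 2).sum ∧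
    b = (L.map fun p => p.1 * p.2).sum ∧ c = (L.map fun p => p.2 ^ 2).sum

theorem Sos2.add {a b c a' b' c' : ℝ[X]} (h : Sos2 a b c) (h' : Sos2 a' b' c') :
    Sos2 (a + a') (b + b') (c + c') := by
  obtain ⟨L, rfl, rfl, rfl⟩ := h
  obtain ⟨L', rfl, rfl, rfl⟩ := h'
  exact ⟨L ++ L', by simp, by simp, by simp⟩

theorem Sos2.swap {a b c : ℝ[X]} (h : Sos2 a b c) : Sos2 c b a := by
  obtain ⟨L, rfl, rfl, rfl⟩ := h
  refine ⟨L.map Prod.swap, ?_, ?_, ?_⟩
  · rw [List.map_map]; rfl
  · rw [List.map_map]
    congr 1
    apply List.map_congr_left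
    intro p _
    simp [mul_comm]
  · rw [List.map_map]; rfl

theorem Sos2.shift {a b c : ℝ[X]} (h : Sos2 a b c) (m : ℝ[X]) :
    Sos2 (a + 2 * m * b + m ^ 2 * c) (b + m * c) c := by
  obtain ⟨L, rfl, rfl, rfl⟩ := h
  refine ⟨L.map fun p => (p.1 + m * p.2, p.2), ?_, ?_, ?_⟩
  · rw [List.map_map]
    induction L with
    | nil => simp
    | cons p L ih =>
      simp only [List.map_cons, List.sum_cons] at ih ⊢
      rw [← ih]
      simp only [Function.comp]
      ring
  · rw [List.map_map]
    induction L with
    | nil => simp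
    | cons p L ih =>
      simp only [List.map_cons, List.sum_cons] at ih ⊢
      rw [← ih]
      simp only [Function.comp]
      ring
  · rw [List.map_map]; rfl

theorem Sos2.scale {a b c : ℝ[X]} (h : Sos2 a b c) (m : ℝ[X]) :
    Sos2 (m ^ 2 * a) (m * b) c := by
  obtain ⟨L, rfl, rfl, rfl⟩ := h
  refine ⟨L.map fun p => (m * p.1, p.2), ?_, ?_, ?_⟩
  · rw [List.map_map]
    induction L with
    | nil => simp
    | cons p L ih =>
      simp only [List.map_cons, List.sum_cons] at ih ⊢
      rw [← ih]
      simp only [Function.comp]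
      ring
  · rw [List.map_map]
    induction L with
    | nil => simp
    | cons p L ih =>
      simp only [List.map_cons, List.sum_cons] at ih ⊢
      rw [← ih]
      simp only [Function.comp]
      ring
  · rw [List.map_map]; rfl

theorem Sos2.of_shift {a b c : ℝ[X]} (m : ℝ[X])
    (h : Sos2 (a + 2 * m * b + m ^ 2 * c) (b + m * c) c) : Sos2 a b c := by
  have := h.shift (-m)
  convert this using 1 <;> ring

theorem Psd2.swap {a b c : ℝ[X]} (h : Psd2 a b c) : Psd2 c b a := fun t =>
  ⟨(h t).2.1, (h t).1, by rw [mul_comm]; exact (h t).2.2⟩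

theorem Psd2.shift {a b c : ℝ[X]} (h : Psd2 a b c) (m : ℝ[X]) :
    Psd2 (a + 2 * m * b + m ^ 2 * c) (b + m * c) c := by
  intro t
  obtain ⟨h1, h2, h3⟩ := h t
  simp only [eval_add, eval_mul, eval_pow, eval_ofNat]
  refine ⟨?_, h2, by nlinarith⟩
  set A := a.eval t
  set B := b.eval t
  set C := c.eval t
  set M := m.eval t
  rcases h2.eq_or_lt with hC | hC
  · have : B = 0 := by
      rw [← hC] at h3
      nlinarith [sq_nonneg B]
    rw [← hC, this]
    simpa using h1
  · have : 0 ≤ C * (A + 2 * M * B + M ^ 2 * C) := by nlinarith [sq_nonneg (M * C + B)]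
    exact nonneg_of_mul_nonneg_right this hC

theorem sos2_square (w : ℝ[X]) : Sos2 (w ^ 2) 0 0 := ⟨[(w, 0)], by simp, by simp, by simp⟩

theorem sos2_zero : Sos2 0 0 0 := ⟨[], by simp, by simp, by simp⟩

theorem sos2_const_mul {l : ℝ} (hl : 0 ≤ l) {w : ℝ[X]} : Sos2 (C l * w ^ 2) 0 0 := by
  have := sos2_square (C (Real.sqrt l) * w)
  rwa [mul_pow, ← C_pow, Real.sq_sqrt hl] at this

/-- A polynomial nonnegative off a point is nonnegative. -/
theorem nonneg_of_off {p : ℝ[X]} {t0 : ℝ} (h : ∀ t, t ≠ t0 → 0 ≤ p.eval t) (t : ℝ) :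
    0 ≤ p.eval t := by
  have hc : IsClosed {t : ℝ | 0 ≤ p.eval t} := isClosed_le continuous_const p.continuous
  have hd : Dense ({t0}ᶜ : Set ℝ) := dense_compl_singleton t0
  have : closure ({t0}ᶜ : Set ℝ) ⊆ {t : ℝ | 0 ≤ p.eval t} :=
    hc.closure_subset_iff.mpr (fun t ht => h t ht)
  rw [hd.closure_eq] at this
  exact this (Set.mem_univ t)

/-- A nonnegative polynomial with a root is divisible by the square of the linear factor. -/
theorem sq_dvd_of_root {p : ℝ[X]} (h : ∀ t, 0 ≤ p.eval t) {t0 : ℝ} (h0 : p.eval t0 = 0) :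
    ∃ q : ℝ[X], p = (X - C t0) ^ 2 * q := by
  obtain ⟨q, rfl⟩ := dvd_iff_isRoot.mpr h0
  have hq : q.eval t0 = 0 := by
    apply le_antisymm
    · by_contra hpos
      push Not at hpos
      -- q > 0 near t0, so left of t0 the product is negative
      have hc : ContinuousAt (fun t => q.eval t) t0 := q.continuous.continuousAt
      have hev : ∀ᶠ t in 𝓝 t0, 0 < q.eval t := hc.eventually (lt_mem_nhds hpos)
      have hev2 : ∀ᶠ t in 𝓝[<] t0, 0 < q.eval t := hev.filter_mono nhdsWithin_le_nhds
      have hev3 : ∀ᶠ t in 𝓝[<] t0, t < t0 := self_mem_nhdsWithin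
      obtain ⟨t, ht1, ht2⟩ := (hev2.and hev3).exists
      have := h t
      simp only [eval_mul, eval_sub, eval_X, eval_C] at this
      nlinarith
    · by_contra hneg
      push Not at hneg
      have hc : ContinuousAt (fun t => q.eval t) t0 := q.continuous.continuousAt
      have hev : ∀ᶠ t in 𝓝 t0, q.eval t < 0 := hc.eventually (gt_mem_nhds hneg)
      have hev2 : ∀ᶠ t in 𝓝[>] t0, q.eval t < 0 := hev.filter_mono nhdsWithin_le_nhds
      have hev3 : ∀ᶠ t in 𝓝[>] t0, t0 < t := self_mem_nhdsWithin
      obtain ⟨t, ht1, ht2⟩ := (hev2.and hev3).exists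
      have := h t
      simp only [eval_mul, eval_sub, eval_X, eval_C] at this
      nlinarith
  obtain ⟨r, rfl⟩ := dvd_iff_isRoot.mpr hq
  exact ⟨r, by ring⟩

theorem natDegree_of_factor {q : ℝ[X]} (hq : q ≠ 0) (t0 : ℝ) :
    ((X - C t0) ^ 2 * q).natDegree = q.natDegree + 2 := by
  rw [natDegree_mul (pow_ne_zero _ (X_sub_C_ne_zero t0)) hq, natDegree_pow, natDegree_X_sub_C]
  ring

theorem factor_nonneg {q : ℝ[X]} {t0 : ℝ} (h : ∀ t, 0 ≤ ((X - C t0) ^ 2 * q).eval t) (t : ℝ) :
    0 ≤ q.eval t := by
  apply nonneg_of_off (t0 := t0)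
  intro t ht
  have := h t
  simp only [eval_mul, eval_pow, eval_sub, eval_X, eval_C] at this
  have h2 : 0 < (t - t0) ^ 2 := by
    have : t - t0 ≠ 0 := sub_ne_zero.mpr ht
    positivity
  exact nonneg_of_mul_nonneg_right this h2

theorem factor_psd2 {a b c : ℝ[X]} {t0 : ℝ}
    (h : Psd2 ((X - C t0) ^ 2 * a) ((X - C t0) * b) c) : Psd2 a b c := by
  have ha := factor_nonneg (fun t => (h t).1)
  intro t
  refine ⟨ha t, (h t).2.1, ?_⟩
  have key : ∀ t, 0 ≤ (a * c - b ^ 2).eval t := by
    apply nonneg_of_off (t0 := t0)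
    intro t ht
    have := (h t).2.2
    simp only [eval_mul, eval_pow, eval_sub, eval_X, eval_C] at this ⊢
    have h2 : 0 < (t - t0) ^ 2 := by
      have : t - t0 ≠ 0 := sub_ne_zero.mpr ht
      positivity
    have h3 : 0 ≤ (t - t0) ^ 2 * (eval t a * eval t c - eval t b ^ 2) := by nlinarith
    exact nonneg_of_mul_nonneg_right h3 h2
  have := key t
  simp only [eval_mul, eval_pow, eval_sub] at this
  linarith

/-- Minimum of a continuous function with a limit at infinity: either it is attained, or the
function stays above its limit. -/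
theorem min_or_limit {f : ℝ → ℝ} (hf : Continuous f) {L : ℝ} (hL : Tendsto f (cocompact ℝ) (𝓝 L)) :
    (∃ t0, ∀ t, f t0 ≤ f t) ∨ (∀ t, L < f t) := by
  by_cases h : ∀ t, L < f t
  · exact Or.inr h
  · push Not at h
    obtain ⟨t1, ht1⟩ := h
    left
    rcases ht1.lt_or_eq with h1 | h1
    · apply hf.exists_forall_le' t1
      exact (hL.eventually (lt_mem_nhds h1)).mono fun t ht => le_of_lt ht
    · by_cases h2 : ∃ t2, f t2 < L
      · obtain ⟨t2, ht2⟩ := h2
        apply hf.exists_forall_le' t2
        exact (hL.eventually (lt_mem_nhds ht2)).mono fun t ht => le_of_lt ht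
      · push Not at h2
        exact ⟨t1, fun t => by rw [h1]; exact h2 t⟩

theorem tendsto_div_cocompact {P Q : ℝ[X]} (h : P.degree = Q.degree) :
    Tendsto (fun x => P.eval x / Q.eval x) (cocompact ℝ) (𝓝 (P.leadingCoeff / Q.leadingCoeff)) := by
  rw [cocompact_eq_atBot_atTop, tendsto_sup]
  exact ⟨div_tendsto_atBot_leadingCoeff_div_of_degree_eq P Q h,
    div_tendsto_atTop_leadingCoeff_div_of_degree_eq P Q h⟩

/-- Leading coefficient and degree of a nonnegative polynomial -/
theorem lead_nonneg {p : ℝ[X]} (h : ∀ t, 0 ≤ p.eval t) : 0 ≤ p.leadingCoeff := by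
  by_contra hneg
  push Not at hneg
  by_cases hd : 0 < p.degree
  · have := p.tendsto_atBot_of_leadingCoeff_nonpos hd hneg.le
    obtain ⟨t, ht⟩ := (this.eventually (eventually_lt_atBot 0)).exists
    exact absurd (h t) (not_le.mpr ht)
  · rw [eq_C_of_degree_le_zero (not_lt.mp hd)] at h hneg
    simp at h hneg
    linarith

theorem natDegree_even {p : ℝ[X]} (h : ∀ t, 0 ≤ p.eval t) : Even p.natDegree := by
  by_cases hp : p = 0
  · simp [hp]
  have h1 := lead_nonneg h
  have h2 : 0 ≤ (p.comp (-X)).leadingCoeff := by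
    apply lead_nonneg
    intro t
    rw [eval_comp]
    exact h _
  rw [comp_neg_X_leadingCoeff_eq] at h2
  by_contra hodd
  rw [Nat.not_even_iff_odd] at hodd
  rw [hodd.neg_one_pow] at h2
  have h3 : p.leadingCoeff ≠ 0 := leadingCoeff_ne_zero.mpr hp
  have : 0 < p.leadingCoeff := lt_of_le_of_ne h1 h3.symm
  linarith

/-- the auxiliary positive sum of squares `1 + X^{2k}` -/
noncomputable def aux (k : ℕ) : ℝ[X] := 1 + X ^ (2 * k)

theorem aux_eval_pos (k : ℕ) (t : ℝ) : 0 < (aux k).eval t := by
  unfold aux
  simp only [eval_add, eval_one, eval_pow, eval_X]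
  have : 0 ≤ t ^ (2 * k) := by rw [pow_mul]; positivity
  linarith

theorem aux_natDegree (k : ℕ) : (aux k).natDegree = 2 * k := by
  unfold aux
  rcases Nat.eq_zero_or_pos k with rfl | hk
  · simp only [mul_zero, pow_zero]
    have : (1 + 1 : ℝ[X]) = C (1 + 1) := by rw [C_add, C_1]
    rw [this, natDegree_C]
  · rw [add_comm]
    have : (1 : ℝ[X]) = C 1 := by simp
    rw [this, natDegree_X_pow_add_C]

theorem aux_ne_zero (k : ℕ) : aux k ≠ 0 := by
  intro h
  have := aux_eval_pos k 0
  rw [h] at this
  simp at this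

theorem aux_sos (k : ℕ) {l : ℝ} (hl : 0 ≤ l) : Sos2 (C l * aux k) 0 0 := by
  have h := (sos2_const_mul hl (w := 1)).add (sos2_const_mul hl (w := X ^ k))
  unfold aux
  convert h using 1
  · ring
  · simp
  · simp

/-- nonnegative univariate polynomials are sums of squares -/
theorem uni_sos (N : ℕ) : ∀ p : ℝ[X], (∀ t, 0 ≤ p.eval t) → p.natDegree < N → Sos2 p 0 0 := by
  induction N with
  | zero => intro p _ h; omega
  | succ N ih =>
    intro p hp hN
    by_cases h0 : p = 0
    · rw [h0]; exact sos2_zero
    obtain ⟨k, hk⟩ := natDegree_even hp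
    rw [← two_mul] at hk
    have hdeg : p.degree = (aux k).degree := by
      rw [degree_eq_natDegree h0, degree_eq_natDegree (aux_ne_zero k), aux_natDegree, hk]
    have hcont : Continuous fun t => p.eval t / (aux k).eval t :=
      p.continuous.div (aux k).continuous (fun t => (aux_eval_pos k t).ne')
    have hroot : ∀ q : ℝ[X], (∀ t, 0 ≤ q.eval t) → q.natDegree ≤ p.natDegree → ∀ t0, q.eval t0 = 0 →
        Sos2 q 0 0 := by
      intro q hq hqd t0 ht0
      obtain ⟨r, rfl⟩ := sq_dvd_of_root hq ht0
      by_cases hr : r = 0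
      · rw [hr, mul_zero]; exact sos2_zero
      · have := natDegree_of_factor hr t0
        have h1 := (ih r (factor_nonneg hq) (by omega)).scale (X - C t0)
        simpa using h1
    have hsub : ∀ l : ℝ, 0 ≤ l → (∀ t, l ≤ p.eval t / (aux k).eval t) →
        ((∃ t0, p.eval t0 / (aux k).eval t0 = l) ∨ l = p.leadingCoeff / (aux k).leadingCoeff) →
        Sos2 p 0 0 := by
      intro l hl hle hor
      set q := p - C l * aux k with hq
      have hqn : ∀ t, 0 ≤ q.eval t := by
        intro t
        have := hle t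
        rw [le_div_iff₀ (aux_eval_pos k t)] at this
        simp [hq, this]
      have hqs : Sos2 q 0 0 := by
        rcases hor with ⟨t0, ht0⟩ | hlead
        · apply hroot q hqn _ t0
          · rw [hq]
            simp only [eval_sub, eval_mul, eval_C]
            rw [← ht0, div_mul_cancel₀ _ (aux_eval_pos k t0).ne']
            ring
          · apply (natDegree_sub_le _ _).trans
            apply max_le le_rfl
            apply (natDegree_C_mul_le _ _).trans
            rw [aux_natDegree, hk]
        · -- leading coefficient vanishes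
          by_cases hq0 : q = 0
          · rw [hq0]; exact sos2_zero
          · apply ih q hqn
            have h1 : q.natDegree ≤ 2 * k := by
              apply (natDegree_sub_le _ _).trans
              apply max_le (by omega)
              apply (natDegree_C_mul_le _ _).trans
              rw [aux_natDegree]
            have h2 : q.coeff (2 * k) = 0 := by
              rw [hq, coeff_sub, coeff_C_mul]
              have h3 : (aux k).coeff (2 * k) = (aux k).leadingCoeff := by
                rw [leadingCoeff, aux_natDegree]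
              have h4 : p.coeff (2 * k) = p.leadingCoeff := by
                rw [leadingCoeff, hk]
              rw [h3, h4, hlead, div_mul_cancel₀]
              · ring
              · exact leadingCoeff_ne_zero.mpr (aux_ne_zero k)
            have h5 : q.natDegree ≠ 2 * k := by
              intro h6
              have : q.leadingCoeff = 0 := by rw [leadingCoeff, h6, h2]
              exact hq0 (leadingCoeff_eq_zero.mp this)
            omega
      have := hqs.add (aux_sos k hl)
      rw [hq] at this
      simpa using this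
    rcases min_or_limit hcont (tendsto_div_cocompact hdeg) with ⟨t0, ht0⟩ | hlim
    · exact hsub _ (div_nonneg (hp t0) (aux_eval_pos k t0).le) ht0 (Or.inl ⟨t0, rfl⟩)
    · apply hsub (p.leadingCoeff / (aux k).leadingCoeff) _ (fun t => (hlim t).le) (Or.inr rfl)
      exact div_nonneg (lead_nonneg hp) (lead_nonneg fun t => (aux_eval_pos k t).le)

theorem psd2_zero_left {b c : ℝ[X]} (h : Psd2 0 b c) : Sos2 0 b c := by
  have hb : b = 0 := by
    apply Polynomial.funext
    intro t
    have := (h t).2.2
    simp only [eval_zero, zero_mul] at this ⊢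
    nlinarith [sq_nonneg (b.eval t)]
  rw [hb]
  exact (uni_sos (c.natDegree + 1) c (fun t => (h t).2.1) (by omega)).swap


theorem Psd2.natDegree_mid {a b c : ℝ[X]} (h : Psd2 a b c) {k l : ℕ} (hk : a.natDegree ≤ 2 * k)
    (hl : c.natDegree ≤ 2 * l) : b.natDegree ≤ k + l := by
  by_contra hcon
  push Not at hcon
  have hb : b ≠ 0 := by rintro rfl; simp at hcon
  set D := a * c - b ^ 2 with hD
  have hDn : ∀ t, 0 ≤ D.eval t := by
    intro t
    have := (h t).2.2
    simp only [hD, eval_sub, eval_mul, eval_pow]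
    linarith
  have h1 : (a * c).natDegree < (b ^ 2).natDegree := by
    rw [natDegree_pow]
    have := natDegree_mul_le (p := a) (q := c)
    omega
  have h2 : D.leadingCoeff = - (b ^ 2).leadingCoeff := by
    rw [hD]
    rw [leadingCoeff_sub_of_degree_lt' (degree_lt_degree h1)]
  have h3 := lead_nonneg hDn
  rw [h2, leadingCoeff_pow] at h3
  have h4 : b.leadingCoeff ≠ 0 := leadingCoeff_ne_zero.mpr hb
  have : 0 < b.leadingCoeff ^ 2 := by positivity
  linarith

/-- the step with degenerate leading form -/
theorem lead_step {N : ℕ} (ih : ∀ a b c : ℝ[X], Psd2 a b c → a.natDegree + c.natDegree < N →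
    Sos2 a b c) {a b c : ℝ[X]} (h : Psd2 a b c) {k l : ℕ} (hlk : l ≤ k) (hk : a.natDegree ≤ 2 * k)
    (hl : c.natDegree = 2 * l) (hc : c ≠ 0) (hN : 2 * k + 2 * l ≤ N)
    (hlead : a.coeff (2 * k) * c.coeff (2 * l) = b.coeff (k + l) ^ 2) : Sos2 a b c := by
  have hb := h.natDegree_mid hk hl.le
  set γ := c.coeff (2 * l) with hγ
  have hγ0 : γ ≠ 0 := by
    rw [hγ, ← hl]
    exact leadingCoeff_ne_zero.mpr hc
  set β := b.coeff (k + l) with hβ
  set m : ℝ[X] := C (-(β / γ)) * X ^ (k - l) with hm
  apply Sos2.of_shift m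
  have hs := h.shift m
  have hcoef : (a + 2 * m * b + m ^ 2 * c).coeff (2 * k) = 0 := by
    have e1 : 2 * m * b = C (2 * (-(β / γ))) * (X ^ (k - l) * b) := by
      rw [hm, C_mul]
      have : (C 2 : ℝ[X]) = 2 := rfl
      rw [this]
      ring
    have e2 : m ^ 2 * c = C ((-(β / γ)) ^ 2) * (X ^ (2 * (k - l)) * c) := by
      rw [hm, mul_pow, C_pow]
      ring
    rw [coeff_add, coeff_add, e1, e2, coeff_C_mul, coeff_C_mul]
    have e3 : (X ^ (k - l) * b).coeff (2 * k) = β := by
      have : 2 * k = (k + l) + (k - l) := by omega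
      rw [this, coeff_X_pow_mul]
    have e4 : (X ^ (2 * (k - l)) * c).coeff (2 * k) = γ := by
      have : 2 * k = 2 * l + 2 * (k - l) := by omega
      rw [this, coeff_X_pow_mul]
    rw [e3, e4]
    have : a.coeff (2 * k) = β ^ 2 / γ := by
      field_simp
      exact hlead
    rw [this]
    field_simp
    ring
  have hdeg : (a + 2 * m * b + m ^ 2 * c).natDegree ≤ 2 * k := by
    have hmd : m.natDegree ≤ k - l := by
      rw [hm]
      exact natDegree_C_mul_X_pow_le _ _
    apply (natDegree_add_le _ _).trans
    apply max_le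
    · apply (natDegree_add_le _ _).trans
      apply max_le hk
      have h2 : (2 * m * b) = 2 * (m * b) := by ring
      rw [h2]
      apply (natDegree_mul_le).trans
      have h3 : (2 : ℝ[X]).natDegree = 0 := natDegree_ofNat 2
      have := natDegree_mul_le (p := m) (q := b)
      omega
    · apply (natDegree_mul_le).trans
      have := natDegree_pow_le (p := m) (n := 2)
      omega
  set a' := a + 2 * m * b + m ^ 2 * c with ha'
  by_cases ha0 : a' = 0
  · rw [ha0] at hs ⊢
    exact psd2_zero_left hs
  · apply ih _ _ _ hs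
    have : a'.natDegree ≠ 2 * k := by
      intro h6
      have : a'.leadingCoeff = 0 := by rw [leadingCoeff, h6, hcoef]
      exact ha0 (leadingCoeff_eq_zero.mp this)
    omega

/-- the step with a singular matrix at a real point -/
theorem root_step {N : ℕ} (ih : ∀ a b c : ℝ[X], Psd2 a b c → a.natDegree + c.natDegree < N →
    Sos2 a b c) {a b c : ℝ[X]} (h : Psd2 a b c) {k l : ℕ} (hlk : l ≤ k) (hk : a.natDegree ≤ 2 * k)
    (hl : c.natDegree = 2 * l) (hN : 2 * k + 2 * l ≤ N) {t0 : ℝ} (hc : c.eval t0 ≠ 0)
    (hD : a.eval t0 * c.eval t0 = b.eval t0 ^ 2) : Sos2 a b c := by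
  have hb := h.natDegree_mid hk hl.le
  set m : ℝ[X] := C (-(b.eval t0 / c.eval t0)) with hm
  apply Sos2.of_shift m
  have hs := h.shift m
  have hdeg : (a + 2 * m * b + m ^ 2 * c).natDegree ≤ 2 * k := by
    have hmd : m.natDegree = 0 := by
      rw [hm]
      exact natDegree_C _
    apply (natDegree_add_le _ _).trans
    apply max_le
    · apply (natDegree_add_le _ _).trans
      apply max_le hk
      have h2 : (2 * m * b) = 2 * (m * b) := by ring
      rw [h2]
      apply (natDegree_mul_le).trans
      have h3 : (2 : ℝ[X]).natDegree = 0 := natDegree_ofNat 2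
      have := natDegree_mul_le (p := m) (q := b)
      omega
    · apply (natDegree_mul_le).trans
      have := natDegree_pow_le (p := m) (n := 2)
      omega
  have ha0 : (a + 2 * m * b + m ^ 2 * c).eval t0 = 0 := by
    simp only [hm, eval_add, eval_mul, eval_pow, eval_C, eval_ofNat]
    field_simp
    linear_combination hD
  have hb0 : (b + m * c).eval t0 = 0 := by
    simp only [hm, eval_add, eval_mul, eval_C]
    field_simp
    ring
  set a' := a + 2 * m * b + m ^ 2 * c with ha'
  set b' := b + m * c with hb'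
  obtain ⟨a1, ha1⟩ := sq_dvd_of_root (fun t => (hs t).1) ha0
  obtain ⟨b1, hb1⟩ := dvd_iff_isRoot.mpr hb0
  by_cases ha2 : a1 = 0
  · rw [ha2, mul_zero] at ha1
    rw [ha1] at hs ⊢
    exact psd2_zero_left hs
  · rw [ha1, hb1]
    rw [ha1, hb1] at hs
    apply Sos2.scale
    apply ih _ _ _ (factor_psd2 hs)
    have := natDegree_of_factor ha2 t0
    rw [← ha1] at this
    omega

theorem psd2_sos2_aux (N : ℕ) : ∀ a b c : ℝ[X], Psd2 a b c → a.natDegree + c.natDegree < N →
    Sos2 a b c := by
  induction N with
  | zero => intro a b c _ h; omega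
  | succ N ih =>
    -- reduce to the case `deg c ≤ deg a`
    suffices hmain : ∀ a b c : ℝ[X], Psd2 a b c → a.natDegree + c.natDegree < N + 1 →
        c.natDegree ≤ a.natDegree → Sos2 a b c by
      intro a b c h hN
      rcases le_total c.natDegree a.natDegree with hle | hle
      · exact hmain a b c h hN hle
      · exact (hmain c b a h.swap (by omega) hle).swap
    intro a b c h hN hle
    by_cases ha0 : a = 0
    · rw [ha0] at h ⊢
      exact psd2_zero_left h
    by_cases hc0 : c = 0
    · rw [hc0] at h ⊢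
      exact (psd2_zero_left h.swap).swap
    obtain ⟨k, hk⟩ := natDegree_even (fun t => (h t).1)
    rw [← two_mul] at hk
    obtain ⟨l, hl⟩ := natDegree_even (fun t => (h t).2.1)
    rw [← two_mul] at hl
    have hlk : l ≤ k := by omega
    have hNN : 2 * k + 2 * l ≤ N := by omega
    have hb := h.natDegree_mid hk.le hl.le
    by_cases hroot : ∃ t0, c.eval t0 = 0
    · -- divide by the square of the linear factor
      obtain ⟨t0, ht0⟩ := hroot
      obtain ⟨c1, hc1⟩ := sq_dvd_of_root (fun t => (h t).2.1) ht0
      have hb0 : b.eval t0 = 0 := by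
        have := (h t0).2.2
        rw [ht0, mul_zero] at this
        nlinarith [sq_nonneg (b.eval t0)]
      obtain ⟨b1, hb1⟩ := dvd_iff_isRoot.mpr hb0
      have hc1' : c1 ≠ 0 := by
        rintro rfl
        rw [mul_zero] at hc1
        exact hc0 hc1
      have hd := natDegree_of_factor hc1' t0
      rw [← hc1] at hd
      have h2 := h.swap
      rw [hc1, hb1] at h2
      rw [hc1, hb1]
      apply Sos2.swap
      apply Sos2.scale
      exact ih _ _ _ (factor_psd2 h2) (by omega)
    push Not at hroot
    have hcpos : ∀ t, 0 < c.eval t := fun t => lt_of_le_of_ne (h t).2.1 (hroot t).symm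
    set D := a * c - b ^ 2 with hD
    have hDn : ∀ t, 0 ≤ D.eval t := by
      intro t
      have := (h t).2.2
      simp only [hD, eval_sub, eval_mul, eval_pow]
      linarith
    have hDdeg : D.natDegree ≤ 2 * k + 2 * l := by
      rw [hD]
      apply (natDegree_sub_le _ _).trans
      apply max_le
      · apply natDegree_mul_le.trans
        omega
      · apply natDegree_pow_le.trans
        omega
    have hDcoef : D.coeff (2 * k + 2 * l) =
        a.coeff (2 * k) * c.coeff (2 * l) - b.coeff (k + l) ^ 2 := by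
      rw [hD, coeff_sub, coeff_mul_add_eq_of_natDegree_le hk.le hl.le]
      congr 1
      have : 2 * k + 2 * l = (k + l) + (k + l) := by ring
      rw [this, sq, coeff_mul_add_eq_of_natDegree_le hb hb, sq]
    by_cases hlead : a.coeff (2 * k) * c.coeff (2 * l) = b.coeff (k + l) ^ 2
    · exact lead_step ih h hlk hk.le hl hc0 hNN hlead
    -- now `D` has degree exactly `2k + 2l`
    have hDcoef0 : D.coeff (2 * k + 2 * l) ≠ 0 := by
      rw [hDcoef]
      exact sub_ne_zero.mpr hlead
    have hD0 : D ≠ 0 := by
      rintro hD0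
      rw [hD0] at hDcoef0
      simp at hDcoef0
    have hDnat : D.natDegree = 2 * k + 2 * l :=
      le_antisymm hDdeg (le_natDegree_of_ne_zero hDcoef0)
    have hcW0 : c * aux k ≠ 0 := mul_ne_zero hc0 (aux_ne_zero k)
    have hcWpos : ∀ t, 0 < (c * aux k).eval t := by
      intro t
      rw [eval_mul]
      exact mul_pos (hcpos t) (aux_eval_pos k t)
    have hcWnat : (c * aux k).natDegree = 2 * k + 2 * l := by
      rw [natDegree_mul hc0 (aux_ne_zero k), aux_natDegree, hl]
      ring
    have hdeg : D.degree = (c * aux k).degree := by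
      rw [degree_eq_natDegree hD0, degree_eq_natDegree hcW0, hDnat, hcWnat]
    have hcont : Continuous fun t => D.eval t / (c * aux k).eval t :=
      D.continuous.div (c * aux k).continuous (fun t => (hcWpos t).ne')
    have hsub : ∀ r : ℝ, 0 ≤ r → (∀ t, r ≤ D.eval t / (c * aux k).eval t) →
        ((∃ t0, D.eval t0 / (c * aux k).eval t0 = r) ∨
          r = D.leadingCoeff / (c * aux k).leadingCoeff) → Sos2 a b c := by
      intro r hr hle hor
      set a' := a - C r * aux k with ha'
      have hps : Psd2 a' b c := by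
        intro t
        have h1 := hle t
        rw [le_div_iff₀ (hcWpos t)] at h1
        simp only [eval_mul, hD, eval_sub, eval_pow] at h1
        have h2 : (b.eval t) ^ 2 ≤ a'.eval t * c.eval t := by
          simp only [ha', eval_sub, eval_mul, eval_C]
          nlinarith
        refine ⟨?_, (h t).2.1, h2⟩
        have h3 : 0 ≤ a'.eval t * c.eval t := le_trans (sq_nonneg _) h2
        exact nonneg_of_mul_nonneg_left h3 (hcpos t)
      have ha'deg : a'.natDegree ≤ 2 * k := by
        rw [ha']
        apply (natDegree_sub_le _ _).trans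
        apply max_le hk.le
        apply (natDegree_C_mul_le _ _).trans
        rw [aux_natDegree]
      have hsos : Sos2 a' b c := by
        rcases hor with ⟨t0, ht0⟩ | hr2
        · apply root_step ih hps hlk ha'deg hl hNN (hroot t0)
          rw [div_eq_iff (hcWpos t0).ne'] at ht0
          simp only [hD, eval_sub, eval_mul, eval_pow, ha', eval_C] at ht0 ⊢
          linear_combination ht0
        · apply lead_step ih hps hlk ha'deg hl hc0 hNN
          have h1 : D.leadingCoeff = r * (c * aux k).leadingCoeff := by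
            rw [hr2, div_mul_cancel₀]
            exact leadingCoeff_ne_zero.mpr hcW0
          rw [leadingCoeff, hDnat, hDcoef, leadingCoeff_mul] at h1
          have h2 : c.leadingCoeff = c.coeff (2 * l) := by rw [leadingCoeff, hl]
          have h3 : (aux k).leadingCoeff = (aux k).coeff (2 * k) := by
            rw [leadingCoeff, aux_natDegree]
          rw [h2, h3] at h1
          rw [ha', coeff_sub, coeff_C_mul]
          linear_combination h1
      have := hsos.add (aux_sos k hr)
      rw [ha'] at this
      simpa using this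
    rcases min_or_limit hcont (tendsto_div_cocompact hdeg) with ⟨t0, ht0⟩ | hlim
    · exact hsub _ (div_nonneg (hDn t0) (hcWpos t0).le) ht0 (Or.inl ⟨t0, rfl⟩)
    · apply hsub (D.leadingCoeff / (c * aux k).leadingCoeff) _ (fun t => (hlim t).le) (Or.inr rfl)
      exact div_nonneg (lead_nonneg hDn) (lead_nonneg fun t => (hcWpos t).le)

/-- **Positive semidefinite univariate `2 × 2` polynomial matrices are sums of squares.** -/
theorem psd2_sos2 {a b c : ℝ[X]} (h : Psd2 a b c) : Sos2 a b c :=
  psd2_sos2_aux (a.natDegree + c.natDegree + 1) a b c h (by omega)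

end Pool.Agent.Lib.MP_646cd9_ag
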