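import Pool.Agent.Lib.MP_646cd9_ag.Elim
import Pool.Agent.Lib.MP_646cd9_ag.MatSOS

/-!
# The cones `C_0, …, C_8` all coincide
-/

namespace Pool.Agent.Lib.MP_646cd9_ag

open Polynomial

theorem monVal_smul (s : ℝ) (x : Fin 3 → ℝ) (l : Fin 21) :
    monVal (s • x) l = s ^ 5 * monVal x l := by
  unfold monVal
  simp only [Fin.prod_univ_three, Pi.smul_apply, smul_eq_mul, mul_pow]
  rw [← expo_degree l, pow_add, pow_add]
  ring

theorem quad_smul (A : Matrix (Fin 21) (Fin 21) ℝ) (s : ℝ) (z : Fin 21 → ℝ) :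
    quad A (fun l => s * z l) = s ^ 2 * quad A z := by
  unfold quad
  rw [Finset.mul_sum]
  apply Finset.sum_congr rfl
  intro k _
  rw [Finset.mul_sum]
  apply Finset.sum_congr rfl
  intro l _
  ring

theorem gramForm_eq_of_affine {A B : Matrix (Fin 21) (Fin 21) ℝ}
    (h : ∀ t y : ℝ, quad A (monVal ![1, t, y]) = quad B (monVal ![1, t, y])) :
    gramForm A = gramForm B := by
  have h1 : gramForm A * MvPolynomial.X 0 = gramForm B * MvPolynomial.X 0 := by
    apply MvPolynomial.funext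
    intro x
    rw [map_mul, map_mul, eval_gramForm, eval_gramForm, MvPolynomial.eval_X]
    by_cases h0 : x 0 = 0
    · rw [h0, mul_zero, mul_zero]
    · congr 1
      have hx : x = x 0 • ![1, x 1 / x 0, x 2 / x 0] := by
        funext i
        fin_cases i
        · simp
        · simp; field_simp
        · simp; field_simp
      have h2 : monVal x = fun l => (x 0) ^ 5 * monVal ![1, x 1 / x 0, x 2 / x 0] l := by
        funext l
        conv_lhs => rw [hx]
        rw [monVal_smul]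
      rw [h2, quad_smul, quad_smul, h]
  exact mul_right_cancel₀ (MvPolynomial.X_ne_zero 0) h1

/-- `t`-block of the coordinates -/
def e0 (i : Fin 6) : Fin 21 := ⟨i, by omega⟩
/-- `y`-block of the coordinates -/
def e1 (j : Fin 5) : Fin 21 := ⟨6 + j, by omega⟩

theorem sum_blocks (g : Fin 21 → ℝ) (h : ∀ l : Fin 21, 10 < (l : ℕ) → g l = 0) :
    ∑ l, g l = ∑ i, g (e0 i) + ∑ j, g (e1 j) := by
  simp only [Fin.sum_univ_succ, Fin.sum_univ_zero, e0, e1]
  rw [h (Fin.succ (Fin.succ (Fin.succ (Fin.succ (Fin.succ (Fin.succ (Fin.succ (Fin.succ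
    (Fin.succ (Fin.succ (Fin.succ 0)))))))))))  (by decide)]
  rw [h (Fin.succ (Fin.succ (Fin.succ (Fin.succ (Fin.succ (Fin.succ (Fin.succ (Fin.succ
    (Fin.succ (Fin.succ (Fin.succ (Fin.succ 0))))))))))))  (by decide)]
  rw [h (Fin.succ (Fin.succ (Fin.succ (Fin.succ (Fin.succ (Fin.succ (Fin.succ (Fin.succ
    (Fin.succ (Fin.succ (Fin.succ (Fin.succ (Fin.succ 0)))))))))))))  (by decide)]
  rw [h (Fin.succ (Fin.succ (Fin.succ (Fin.succ (Fin.succ (Fin.succ (Fin.succ (Fin.succ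
    (Fin.succ (Fin.succ (Fin.succ (Fin.succ (Fin.succ (Fin.succ 0))))))))))))))  (by decide)]
  rw [h (Fin.succ (Fin.succ (Fin.succ (Fin.succ (Fin.succ (Fin.succ (Fin.succ (Fin.succ
    (Fin.succ (Fin.succ (Fin.succ (Fin.succ (Fin.succ (Fin.succ (Fin.succ 0)))))))))))))))
    (by decide)]
  rw [h (Fin.succ (Fin.succ (Fin.succ (Fin.succ (Fin.succ (Fin.succ (Fin.succ (Fin.succ
    (Fin.succ (Fin.succ (Fin.succ (Fin.succ (Fin.succ (Fin.succ (Fin.succ (Fin.succ
    0))))))))))))))))  (by decide)]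
  rw [h (Fin.succ (Fin.succ (Fin.succ (Fin.succ (Fin.succ (Fin.succ (Fin.succ (Fin.succ
    (Fin.succ (Fin.succ (Fin.succ (Fin.succ (Fin.succ (Fin.succ (Fin.succ (Fin.succ (Fin.succ
    0)))))))))))))))))  (by decide)]
  rw [h (Fin.succ (Fin.succ (Fin.succ (Fin.succ (Fin.succ (Fin.succ (Fin.succ (Fin.succ
    (Fin.succ (Fin.succ (Fin.succ (Fin.succ (Fin.succ (Fin.succ (Fin.succ (Fin.succ (Fin.succ
    (Fin.succ 0))))))))))))))))))  (by decide)]
  rw [h (Fin.succ (Fin.succ (Fin.succ (Fin.succ (Fin.succ (Fin.succ (Fin.succ (Fin.succ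
    (Fin.succ (Fin.succ (Fin.succ (Fin.succ (Fin.succ (Fin.succ (Fin.succ (Fin.succ (Fin.succ
    (Fin.succ (Fin.succ 0)))))))))))))))))))  (by decide)]
  rw [h (Fin.succ (Fin.succ (Fin.succ (Fin.succ (Fin.succ (Fin.succ (Fin.succ (Fin.succ
    (Fin.succ (Fin.succ (Fin.succ (Fin.succ (Fin.succ (Fin.succ (Fin.succ (Fin.succ (Fin.succ
    (Fin.succ (Fin.succ (Fin.succ 0))))))))))))))))))))  (by decide)]
  simp only [add_zero]
  ring_nf
  rfl


theorem monVal_e0 (t y : ℝ) (i : Fin 6) : monVal ![1, t, y] (e0 i) = t ^ (i : ℕ) := by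
  fin_cases i <;> simp [monVal, Fin.prod_univ_three, e0, expo]

theorem monVal_e1 (t y : ℝ) (j : Fin 5) : monVal ![1, t, y] (e1 j) = t ^ (j : ℕ) * y := by
  fin_cases j <;> simp [monVal, Fin.prod_univ_three, e1, expo]

/-- the three coefficient polynomials of a Gram matrix supported on the first `11` indices -/
noncomputable def pa (A : Matrix (Fin 21) (Fin 21) ℝ) : ℝ[X] :=
  ∑ i : Fin 6, ∑ k : Fin 6, C (A (e0 i) (e0 k)) * X ^ ((i : ℕ) + k)
noncomputable def pb (A : Matrix (Fin 21) (Fin 21) ℝ) : ℝ[X] :=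
  ∑ i : Fin 6, ∑ k : Fin 5, C (A (e0 i) (e1 k)) * X ^ ((i : ℕ) + k)
noncomputable def pc (A : Matrix (Fin 21) (Fin 21) ℝ) : ℝ[X] :=
  ∑ i : Fin 5, ∑ k : Fin 5, C (A (e1 i) (e1 k)) * X ^ ((i : ℕ) + k)

theorem pa_natDegree (A : Matrix (Fin 21) (Fin 21) ℝ) : (pa A).natDegree ≤ 10 := by
  unfold pa
  apply natDegree_sum_le_of_forall_le
  intro i _
  apply natDegree_sum_le_of_forall_le
  intro k _
  apply (natDegree_C_mul_X_pow_le _ _).trans
  omega

theorem pc_natDegree (A : Matrix (Fin 21) (Fin 21) ℝ) : (pc A).natDegree ≤ 8 := by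
  unfold pc
  apply natDegree_sum_le_of_forall_le
  intro i _
  apply natDegree_sum_le_of_forall_le
  intro k _
  apply (natDegree_C_mul_X_pow_le _ _).trans
  omega

theorem quad_blocks {A : Matrix (Fin 21) (Fin 21) ℝ} (hA : A.IsSymm)
    (h0 : ∀ m : Fin 21, 10 < (m : ℕ) → ∀ l, A m l = 0) (t y : ℝ) :
    quad A (monVal ![1, t, y]) =
      (pa A).eval t + 2 * (pb A).eval t * y + (pc A).eval t * y ^ 2 := by
  unfold quad
  rw [sum_blocks _ (fun k hk => by simp [h0 k hk])]
  have h1 : ∀ k l : Fin 21, 10 < (l : ℕ) → A k l = 0 := fun k l hl => by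
    rw [← hA.apply]; exact h0 l hl k
  have h2 : ∀ k : Fin 21, ∑ l, A k l * monVal ![1, t, y] k * monVal ![1, t, y] l =
      ∑ i, A k (e0 i) * monVal ![1, t, y] k * monVal ![1, t, y] (e0 i) +
      ∑ i, A k (e1 i) * monVal ![1, t, y] k * monVal ![1, t, y] (e1 i) := fun k =>
    sum_blocks _ (fun l hl => by simp [h1 k l hl])
  simp only [h2]
  simp only [monVal_e0, monVal_e1, Finset.sum_add_distrib]
  have e3 : ∑ x : Fin 6, ∑ x_1 : Fin 6, A (e0 x) (e0 x_1) * t ^ (x : ℕ) * t ^ (x_1 : ℕ)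
      = (pa A).eval t := by
    unfold pa
    simp only [eval_finsetSum, eval_mul, eval_C, eval_pow, eval_X, pow_add, mul_assoc]
  have e4 : ∑ x : Fin 6, ∑ x_1 : Fin 5, A (e0 x) (e1 x_1) * t ^ (x : ℕ) * (t ^ (x_1 : ℕ) * y)
      = (pb A).eval t * y := by
    unfold pb
    simp only [eval_finsetSum, eval_mul, eval_C, eval_pow, eval_X, pow_add, Finset.sum_mul,
      mul_assoc]
  have e5 : ∑ x : Fin 5, ∑ x_1 : Fin 6, A (e1 x) (e0 x_1) * (t ^ (x : ℕ) * y) * t ^ (x_1 : ℕ)
      = (pb A).eval t * y := by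
    rw [Finset.sum_comm]
    unfold pb
    simp only [eval_finsetSum, eval_mul, eval_C, eval_pow, eval_X, pow_add, Finset.sum_mul]
    apply Finset.sum_congr rfl
    intro i _
    apply Finset.sum_congr rfl
    intro k _
    rw [hA.apply]
    ring
  have e6 : ∑ x : Fin 5, ∑ x_1 : Fin 5, A (e1 x) (e1 x_1) * (t ^ (x : ℕ) * y) * (t ^ (x_1 : ℕ) * y)
      = (pc A).eval t * y ^ 2 := by
    unfold pc
    simp only [eval_finsetSum, eval_mul, eval_C, eval_pow, eval_X, pow_add, Finset.sum_mul]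
    apply Finset.sum_congr rfl
    intro i _
    apply Finset.sum_congr rfl
    intro k _
    ring
  rw [e3, e4, e5, e6]
  ring

theorem natDegree_le_of_sq_le {u a : ℝ[X]} (h : ∀ t, (u.eval t) ^ 2 ≤ a.eval t) {d : ℕ}
    (ha : a.natDegree ≤ 2 * d) : u.natDegree ≤ d := by
  by_contra hcon
  push Not at hcon
  have hu : u ≠ 0 := by rintro rfl; simp at hcon
  have h1 : a.natDegree < (u ^ 2).natDegree := by rw [natDegree_pow]; omega
  have h2 : (a - u ^ 2).leadingCoeff = - (u ^ 2).leadingCoeff := by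
    rw [leadingCoeff_sub_of_degree_lt' (degree_lt_degree h1)]
  have h3 : 0 ≤ (a - u ^ 2).leadingCoeff := by
    apply lead_nonneg
    intro t
    simp only [eval_sub, eval_pow]
    linarith [h t]
  rw [h2, leadingCoeff_pow] at h3
  have h4 : u.leadingCoeff ≠ 0 := leadingCoeff_ne_zero.mpr hu
  have : 0 < u.leadingCoeff ^ 2 := by positivity
  linarith

theorem list_sq_le (L : List ℝ[X]) (t : ℝ) (p : ℝ[X]) (hp : p ∈ L) :
    (p.eval t) ^ 2 ≤ ((L.map fun q => q ^ 2).sum).eval t := by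
  have hnn : ∀ L : List ℝ[X], 0 ≤ ((L.map fun q => q ^ 2).sum).eval t := by
    intro L
    induction L with
    | nil => simp
    | cons q L ih =>
      simp only [List.map_cons, List.sum_cons, eval_add, eval_pow]
      positivity
  induction L with
  | nil => simp at hp
  | cons q L ih =>
    simp only [List.map_cons, List.sum_cons, eval_add, eval_pow]
    rcases List.mem_cons.mp hp with rfl | h
    · linarith [hnn L]
    · have := ih h
      nlinarith [sq_nonneg (q.eval t)]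

/-- coefficient vector of a pair of polynomials -/
noncomputable def vec (p : ℝ[X] × ℝ[X]) (l : Fin 21) : ℝ :=
  if (l : ℕ) < 6 then p.1.coeff l else if (l : ℕ) < 11 then p.2.coeff (l - 6) else 0

theorem vec_dot {p : ℝ[X] × ℝ[X]} (h1 : p.1.natDegree ≤ 5) (h2 : p.2.natDegree ≤ 4) (t y : ℝ) :
    ∑ l, vec p l * monVal ![1, t, y] l = p.1.eval t + p.2.eval t * y := by
  rw [sum_blocks _ (fun l hl => by
    have : ¬ (l : ℕ) < 6 := by omega
    have h' : ¬ (l : ℕ) < 11 := by omega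
    simp [vec, this, h'])]
  simp only [monVal_e0, monVal_e1]
  have g1 : ∑ i : Fin 6, vec p (e0 i) * t ^ (i : ℕ) = p.1.eval t := by
    rw [eval_eq_sum_range' (n := 6) (by omega), Finset.sum_range]
    apply Finset.sum_congr rfl
    intro i _
    have h3 : vec p (e0 i) = p.1.coeff i := by
      unfold vec
      rw [if_pos (show ((e0 i : Fin 21) : ℕ) < 6 from i.2)]
      rfl
    rw [h3]
  have g2 : ∑ i : Fin 5, vec p (e1 i) * (t ^ (i : ℕ) * y) = p.2.eval t * y := by
    rw [eval_eq_sum_range' (n := 5) (by omega), Finset.sum_range, Finset.sum_mul]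
    apply Finset.sum_congr rfl
    intro i _
    have h3 : vec p (e1 i) = p.2.coeff i := by
      unfold vec
      rw [if_neg (show ¬ ((e1 i : Fin 21) : ℕ) < 6 from by simp [e1]),
        if_pos (show ((e1 i : Fin 21) : ℕ) < 11 from by simp only [e1]; omega)]
      simp [e1]
    rw [h3]
    ring
  rw [g1, g2]

theorem quad_list (L : List (ℝ[X] × ℝ[X])) (h : ∀ p ∈ L, p.1.natDegree ≤ 5 ∧ p.2.natDegree ≤ 4)
    (t y : ℝ) : quad (sqMat (L.map vec)) (monVal ![1, t, y]) =
      ((L.map fun p : ℝ[X] × ℝ[X] => p.1 ^ 2).sum).eval t +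
        2 * ((L.map fun p : ℝ[X] × ℝ[X] => p.1 * p.2).sum).eval t * y
        + ((L.map fun p : ℝ[X] × ℝ[X] => p.2 ^ 2).sum).eval t * y ^ 2 := by
  induction L with
  | nil => simp [sqMat, quad]
  | cons p L ih =>
    have ih' := ih (fun q hq => h q (List.mem_cons_of_mem _ hq))
    have hp := h p List.mem_cons_self
    unfold sqMat at *
    simp only [List.map_cons, List.sum_cons, quad_add, quad_vecMulVec, vec_dot hp.1 hp.2,
      eval_add, eval_mul, eval_pow]
    rw [ih']
    ring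

theorem block_sos {A : Matrix (Fin 21) (Fin 21) ℝ} (hA : A.IsSymm) (hg : Good 10 A)
    (h0 : ∀ m : Fin 21, 10 < (m : ℕ) → ∀ l, A m l = 0) :
    ∃ L : List (Fin 21 → ℝ), gramForm (sqMat L) = gramForm A := by
  have hnn : ∀ t y : ℝ, 0 ≤ (pa A).eval t + 2 * (pb A).eval t * y + (pc A).eval t * y ^ 2 := by
    intro t y
    rw [← quad_blocks hA h0]
    exact hg ![1, t, y] _ (fun _ _ => rfl)
  have hps : Psd2 (pa A) (pb A) (pc A) := by
    intro t
    have h1 := quadratic_aux (a := (pa A).eval t) (b := (pb A).eval t) (c := (pc A).eval t)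
      (by intro y; have := hnn t y; nlinarith)
    refine ⟨?_, h1.2, h1.1⟩
    have := hnn t 0
    simpa using this
  obtain ⟨L, hLa, hLb, hLc⟩ := psd2_sos2 hps
  refine ⟨L.map vec, ?_⟩
  apply gramForm_eq_of_affine
  intro t y
  rw [quad_list, quad_blocks hA h0, ← hLa, ← hLb, ← hLc]
  intro p hp
  constructor
  · apply natDegree_le_of_sq_le (a := pa A) _ (pa_natDegree A)
    intro t
    have := list_sq_le (L.map Prod.fst) t p.1 (List.mem_map_of_mem hp)
    rw [List.map_map] at this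
    rw [hLa]
    exact this
  · apply natDegree_le_of_sq_le (a := pc A) _ (pc_natDegree A)
    intro t
    have := list_sq_le (L.map Prod.snd) t p.2 (List.mem_map_of_mem hp)
    rw [List.map_map] at this
    rw [hLc]
    exact this

theorem good_ten_sos {A : Matrix (Fin 21) (Fin 21) ℝ} (hA : A.IsSymm) (hg : Good 10 A) :
    ∃ L : List (Fin 21 → ℝ), gramForm (sqMat L) = gramForm A := by
  obtain ⟨L, A', hA', hg', rfl, h0⟩ := elim_all hg hA
  obtain ⟨L', hL'⟩ := block_sos hA' hg' h0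
  refine ⟨L' ++ L, ?_⟩
  have : sqMat (L' ++ L) = sqMat L' + sqMat L := by
    unfold sqMat
    simp
  rw [this, gramForm_add, hL', gramForm_add]

end Pool.Agent.Lib.MP_646cd9_ag
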