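import Mathlib

/-!
# The non-lexicographic cone filtration of ternary decics

Definitions for the problem `MP_646cd9_ag`.
-/

namespace Pool.Agent.Lib.MP_646cd9_ag

open MvPolynomial

/-- The exponents `α_0, …, α_20` of total degree `5` in three variables, listed in decreasing
order for the order of the problem (`α < β` iff `α_0 + α_1 < β_0 + β_1`, or these sums agree and
`α_0 < β_0`, …). -/
def expo : Fin 21 → Fin 3 → ℕ :=
  ![![5, 0, 0], ![4, 1, 0], ![3, 2, 0], ![2, 3, 0], ![1, 4, 0], ![0, 5, 0],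
    ![4, 0, 1], ![3, 1, 1], ![2, 2, 1], ![1, 3, 1], ![0, 4, 1],
    ![3, 0, 2], ![2, 1, 2], ![1, 2, 2], ![0, 3, 2],
    ![2, 0, 3], ![1, 1, 3], ![0, 2, 3],
    ![1, 0, 4], ![0, 1, 4],
    ![0, 0, 5]]

/-- The value `m_l(x)` of the monomial `m_l = X^{α_l}` at a point `x`. -/
def monVal {R : Type*} [CommSemiring R] (x : Fin 3 → R) (l : Fin 21) : R :=
  ∏ i, x i ^ expo l i

/-- The quadratic form `q_A(z) = z A zᵀ`, for a real matrix `A` and a real vector `z`. -/
def quad (A : Matrix (Fin 21) (Fin 21) ℝ) (z : Fin 21 → ℝ) : ℝ :=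
  ∑ k, ∑ l, A k l * z k * z l

/-- The form `f_A = q_A(m_0, …, m_20)` of degree `10`. -/
noncomputable def gramForm (A : Matrix (Fin 21) (Fin 21) ℝ) : MvPolynomial (Fin 3) ℝ :=
  ∑ k, ∑ l, C (A k l) * monVal X k * monVal X l

/-- The complex projective space of dimension `20`. -/
abbrev P20 : Type := Projectivization ℂ (Fin 21 → ℂ)

/-- `T_j`: the points `[z]` having a representative `z` with
`(z_0, …, z_j) = (m_0(x), …, m_j(x))` for some `x ∈ ℂ³`. -/
def T (j : ℕ) : Set P20 :=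
  {P | ∃ (z : Fin 21 → ℂ) (hz : z ≠ 0), Projectivization.mk ℂ z hz = P ∧
    ∃ x : Fin 3 → ℂ, ∀ l : Fin 21, (l : ℕ) ≤ j → z l = monVal x l}

/-- The sets `H_0 = T_0`, `H_i = T_{i+1}` for `1 ≤ i ≤ 4`, `H_i = T_{i+2}` for `i ≥ 5`. -/
def H (i : ℕ) : Set P20 :=
  if i = 0 then T 0 else if i ≤ 4 then T (i + 1) else T (i + 2)

/-- Zariski closure in projective space: the common zeros of all homogeneous polynomials which
vanish on the given set. -/
def zariskiClosure (S : Set P20) : Set P20 :=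
  {P | ∀ (d : ℕ) (F : MvPolynomial (Fin 21) ℂ), F.IsHomogeneous d →
    (∀ Q ∈ S, eval Q.rep F = 0) → eval P.rep F = 0}

/-- `V_i`, the Zariski closure of `H_i`. -/
def V (i : ℕ) : Set P20 := zariskiClosure (H i)

/-- The cone `C_W`: forms `f` of degree `10` having a Gram matrix `A` (a real symmetric matrix
with `f_A = f`) such that `q_A ≥ 0` at the real points of `W`. -/
def coneOf (W : Set P20) : Set (MvPolynomial (Fin 3) ℝ) :=
  {f | f.IsHomogeneous 10 ∧ ∃ A : Matrix (Fin 21) (Fin 21) ℝ, A.IsSymm ∧ gramForm A = f ∧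
    ∀ (z : Fin 21 → ℝ) (hz : (fun l => (z l : ℂ)) ≠ 0),
      Projectivization.mk ℂ (fun l => (z l : ℂ)) hz ∈ W → 0 ≤ quad A z}

/-- The cone `C_i = C_{V_i}`. -/
def cone (i : ℕ) : Set (MvPolynomial (Fin 3) ℝ) := coneOf (V i)

end Pool.Agent.Lib.MP_646cd9_ag
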