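import Pool.Agent.Lib.MP_646cd9_ag.Basic

namespace Pool.Agent.Lib.MP_646cd9_ag

open MvPolynomial

/-- sum of the rank one forms given by a list of vectors -/
def sqMat (L : List (Fin 21 → ℝ)) : Matrix (Fin 21) (Fin 21) ℝ :=
  (L.map fun w => Matrix.vecMulVec w w).sum

theorem quad_add (A B : Matrix (Fin 21) (Fin 21) ℝ) (z : Fin 21 → ℝ) :
    quad (A + B) z = quad A z + quad B z := by
  unfold quad
  simp only [Matrix.add_apply, add_mul, Finset.sum_add_distrib]

theorem quad_vecMulVec (w : Fin 21 → ℝ) (z : Fin 21 → ℝ) :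
    quad (Matrix.vecMulVec w w) z = (∑ l, w l * z l) ^ 2 := by
  unfold quad
  rw [sq, Finset.sum_mul_sum]
  apply Finset.sum_congr rfl
  intro k _
  apply Finset.sum_congr rfl
  intro l _
  rw [Matrix.vecMulVec_apply]
  ring

theorem quad_sqMat_nonneg (L : List (Fin 21 → ℝ)) (z : Fin 21 → ℝ) : 0 ≤ quad (sqMat L) z := by
  induction L with
  | nil => simp [sqMat, quad]
  | cons w L ih =>
    unfold sqMat at *
    rw [List.map_cons, List.sum_cons, quad_add, quad_vecMulVec]
    positivity

theorem sqMat_isSymm (L : List (Fin 21 → ℝ)) : (sqMat L).IsSymm := by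
  induction L with
  | nil => simp [sqMat]
  | cons w L ih =>
    unfold sqMat at *
    rw [List.map_cons, List.sum_cons]
    apply Matrix.IsSymm.add _ ih
    ext i j
    simp [Matrix.vecMulVec_apply, mul_comm]

theorem gramForm_add (A B : Matrix (Fin 21) (Fin 21) ℝ) :
    gramForm (A + B) = gramForm A + gramForm B := by
  apply MvPolynomial.funext
  intro x
  rw [map_add, eval_gramForm, eval_gramForm, eval_gramForm, quad_add]

theorem elim_step {j : ℕ} {A : Matrix (Fin 21) (Fin 21) ℝ} (hg : Good j A) (hA : A.IsSymm)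
    {n : Fin 21} (hn : j < (n : ℕ)) :
    ∃ w : Fin 21 → ℝ, ∃ A' : Matrix (Fin 21) (Fin 21) ℝ, A'.IsSymm ∧ Good j A' ∧
      A = A' + Matrix.vecMulVec w w ∧ (∀ l, A' n l = 0) ∧
      (∀ m, (∀ l, A m l = 0) → ∀ l, A' m l = 0) := by
  rcases (hg.diag_nonneg hA hn).eq_or_lt with h0 | hpos
  · refine ⟨0, A, hA, hg, ?_, fun l => hg.row_zero hA hn h0.symm l, fun m h => h⟩
    ext i k
    simp [Matrix.vecMulVec_apply]
  · set s := Real.sqrt (A n n) with hs
    have hs2 : s * s = A n n := Real.mul_self_sqrt hpos.le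
    have hs0 : s ≠ 0 := by
      intro h
      rw [h] at hs2
      simp at hs2
      linarith
    refine ⟨fun l => A n l / s, A - Matrix.vecMulVec (fun l => A n l / s) (fun l => A n l / s),
      ?_, ?_, ?_, ?_, ?_⟩
    · apply Matrix.IsSymm.sub hA
      ext i j
      simp [Matrix.vecMulVec_apply, mul_comm]
    · intro x z hz
      have h1 : quad A z = quad (A - Matrix.vecMulVec (fun l => A n l / s) (fun l => A n l / s)) z
          + (∑ l, A n l / s * z l) ^ 2 := by
        rw [← quad_vecMulVec, ← quad_add]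
        congr 1
        abel
      have h2 := hg.lin_sq_le hA hn hz
      have h3 : ∑ l, A n l / s * z l = lin A n z / s := by
        unfold lin
        rw [Finset.sum_div]
        apply Finset.sum_congr rfl
        intro l _
        ring
      rw [h3] at h1
      have h4 : (lin A n z / s) ^ 2 ≤ quad A z := by
        rw [div_pow, sq s, hs2, div_le_iff₀ hpos]
        exact h2
      linarith
    · abel
    · intro l
      rw [Matrix.sub_apply, Matrix.vecMulVec_apply]
      field_simp
      rw [sq, hs2]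
      ring
    · intro m hm l
      rw [Matrix.sub_apply, Matrix.vecMulVec_apply, hm l]
      have : A n m = 0 := by rw [hA.apply]; exact hm n
      rw [this]
      simp

theorem elim_all {j : ℕ} {A : Matrix (Fin 21) (Fin 21) ℝ} (hg : Good j A) (hA : A.IsSymm) :
    ∃ L : List (Fin 21 → ℝ), ∃ A' : Matrix (Fin 21) (Fin 21) ℝ, A'.IsSymm ∧ Good j A' ∧
      A = A' + sqMat L ∧ ∀ m : Fin 21, j < (m : ℕ) → ∀ l, A' m l = 0 := by
  have key : ∀ d : ℕ, d ≤ 21 → ∃ L : List (Fin 21 → ℝ), ∃ A' : Matrix (Fin 21) (Fin 21) ℝ,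
      A'.IsSymm ∧ Good j A' ∧ A = A' + sqMat L ∧
      ∀ m : Fin 21, j < (m : ℕ) → 21 - d ≤ (m : ℕ) → ∀ l, A' m l = 0 := by
    intro d
    induction d with
    | zero =>
      intro _
      refine ⟨[], A, hA, hg, by simp [sqMat], ?_⟩
      intro m _ hm
      have := m.2
      omega
    | succ d ih =>
      intro hd
      obtain ⟨L, A', hA', hg', hAA, hr⟩ := ih (by omega)
      by_cases hj : j < 21 - (d + 1)
      · obtain ⟨w, A'', hA'', hg'', hAA', hn, hrr⟩ :=
          elim_step hg' hA' (n := ⟨21 - (d + 1), by omega⟩) hj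
        refine ⟨w :: L, A'', hA'', hg'', ?_, ?_⟩
        · rw [hAA, hAA']
          unfold sqMat
          rw [List.map_cons, List.sum_cons]
          abel
        · intro m hm hmd l
          by_cases h : (m : ℕ) = 21 - (d + 1)
          · have : m = ⟨21 - (d + 1), by omega⟩ := Fin.ext h
            rw [this]
            exact hn l
          · exact hrr m (hr m hm (by omega)) l
      · refine ⟨L, A', hA', hg', hAA, ?_⟩
        intro m hm hmd l
        exact hr m hm (by omega) l
  obtain ⟨L, A', h1, h2, h3, h4⟩ := key 21 le_rfl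
  exact ⟨L, A', h1, h2, h3, fun m hm => h4 m hm (by omega)⟩

end Pool.Agent.Lib.MP_646cd9_ag
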