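import Pool.Agent.Lib.MP_646cd9_ag.Strict

/-!
# The cones `C_i`
-/

namespace Pool.Agent.Lib.MP_646cd9_ag

/-- the index `j` with `H_i = T_j` -/
def jOf (i : ℕ) : ℕ := if i = 0 then 0 else if i ≤ 4 then i + 1 else i + 2

theorem H_eq (i : ℕ) : H i = T (jOf i) := by
  unfold H jOf
  split_ifs <;> rfl

theorem T_anti {j k : ℕ} (h : j ≤ k) : T k ⊆ T j := by
  rintro P ⟨z, hz, hP, x, hx⟩
  exact ⟨z, hz, hP, x, fun l hl => hx l (hl.trans h)⟩

theorem zariskiClosure_mono {S S' : Set P20} (h : S ⊆ S') :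
    zariskiClosure S ⊆ zariskiClosure S' :=
  fun _ hP d F hF hS => hP d F hF (fun Q hQ => hS Q (h hQ))

theorem subset_zariskiClosure (S : Set P20) : S ⊆ zariskiClosure S :=
  fun P hP _ _ _ hS => hS P hP

theorem coneOf_anti {W W' : Set P20} (h : W ⊆ W') : coneOf W' ⊆ coneOf W := by
  rintro f ⟨hf, A, hA, hAf, hq⟩
  exact ⟨hf, A, hA, hAf, fun z hz hW => hq z hz (h hW)⟩

theorem cone_mono {i k : ℕ} (h : i ≤ k) : cone i ⊆ cone k := by
  apply coneOf_anti
  apply zariskiClosure_mono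
  rw [H_eq, H_eq]
  apply T_anti
  unfold jOf
  split_ifs <;> omega

theorem monVal_ofReal (x : Fin 3 → ℝ) (l : Fin 21) :
    monVal (fun i => (x i : ℂ)) l = ((monVal x l : ℝ) : ℂ) := by
  unfold monVal
  push_cast
  rfl

/-- a Gram matrix witnessing `f ∈ C_i` is nonnegative above the real points of `T_j` -/
theorem good_of_cone {i : ℕ} {A : Matrix (Fin 21) (Fin 21) ℝ}
    (hA : ∀ (z : Fin 21 → ℝ) (hz : (fun l => (z l : ℂ)) ≠ 0),
      Projectivization.mk ℂ (fun l => (z l : ℂ)) hz ∈ V i → 0 ≤ quad A z) : Good (jOf i) A := by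
  intro x z hxz
  by_cases hz : (fun l => (z l : ℂ)) = 0
  · have : z = 0 := by
      funext l
      have := congrFun hz l
      simpa using this
    rw [this]
    simp [quad]
  · apply hA z hz
    apply subset_zariskiClosure
    rw [H_eq]
    refine ⟨_, hz, rfl, fun i => (x i : ℂ), ?_⟩
    intro l hl
    rw [monVal_ofReal, hxz l hl]

theorem cone_eight_subset : cone 8 ⊆ cone 0 := by
  rintro f ⟨hf, A, hA, hAf, hq⟩
  have hg : Good 10 A := good_of_cone (i := 8) hq
  obtain ⟨L, hL⟩ := good_ten_sos hA hg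
  exact ⟨hf, sqMat L, sqMat_isSymm L, hL.trans hAf, fun z _ _ => quad_sqMat_nonneg L z⟩

/-- arithmetic-geometric mean inequality with a cube relation -/
theorem amgm {a b c d : ℝ} (h : a * b * c = d ^ 3) : 0 ≤ a ^ 2 + b ^ 2 + c ^ 2 - 3 * d ^ 2 := by
  have key : ∀ x y z w : ℝ, 0 ≤ x → 0 ≤ y → 0 ≤ z → 0 ≤ w → x * y * z = w ^ 3 →
      3 * w ≤ x + y + z := by
    intro x y z w hx hy hz hw hxyz
    by_contra hcon
    push Not at hcon
    have h1 : 27 * (x * y * z) ≤ (x + y + z) ^ 3 := by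
      nlinarith [mul_nonneg hx (sq_nonneg (y - z)), mul_nonneg hy (sq_nonneg (x - z)),
        mul_nonneg hz (sq_nonneg (x - y)), mul_nonneg hx (sq_nonneg (x - y)),
        mul_nonneg hx (sq_nonneg (x - z)), mul_nonneg hy (sq_nonneg (y - z)),
        mul_nonneg hy (sq_nonneg (x - y)), mul_nonneg hz (sq_nonneg (x - z)),
        mul_nonneg hz (sq_nonneg (y - z)), mul_nonneg (add_nonneg (add_nonneg hx hy) hz)
          (sq_nonneg (x - y)), mul_nonneg (add_nonneg (add_nonneg hx hy) hz)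
          (sq_nonneg (y - z)), mul_nonneg (add_nonneg (add_nonneg hx hy) hz)
          (sq_nonneg (x - z))]
    have h2 : (x + y + z) ^ 3 < (3 * w) ^ 3 := by
      apply pow_lt_pow_left₀ hcon (by positivity) (by norm_num)
    rw [hxyz] at h1
    nlinarith
  have h2 := key (a ^ 2) (b ^ 2) (c ^ 2) (d ^ 2) (sq_nonneg _) (sq_nonneg _) (sq_nonneg _)
    (sq_nonneg _) (by
      have : a ^ 2 * b ^ 2 * c ^ 2 = (a * b * c) ^ 2 := by ring
      rw [this, h]
      ring)
  linarith

/-- The cubic relation on the Zariski closure. -/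
theorem cubic_relation {j : ℕ} {p q r c : Fin 21} (hp : (p : ℕ) ≤ j) (hq : (q : ℕ) ≤ j)
    (hr : (r : ℕ) ≤ j) (hc : (c : ℕ) ≤ j)
    (he : ∀ i, expo p i + expo q i + expo r i = 3 * expo c i) (z : Fin 21 → ℂ) (hz : z ≠ 0)
    (hmem : Projectivization.mk ℂ z hz ∈ zariskiClosure (T j)) :
    z p * z q * z r = z c ^ 3 := by
  set F : MvPolynomial (Fin 21) ℂ := MvPolynomial.X p * MvPolynomial.X q * MvPolynomial.X r -
    MvPolynomial.X c ^ 3 with hF
  have hhom : F.IsHomogeneous 3 := by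
    apply MvPolynomial.IsHomogeneous.sub
    · exact ((MvPolynomial.isHomogeneous_X ℂ p).mul (MvPolynomial.isHomogeneous_X ℂ q)).mul
        (MvPolynomial.isHomogeneous_X ℂ r)
    · simpa using (MvPolynomial.isHomogeneous_X ℂ c).pow 3
  have heval : ∀ y : Fin 21 → ℂ, MvPolynomial.eval y F = y p * y q * y r - y c ^ 3 := by
    intro y
    simp [hF]
  have hscale : ∀ (y : Fin 21 → ℂ) (hy : y ≠ 0), MvPolynomial.eval y F = 0 ↔
      MvPolynomial.eval (Projectivization.mk ℂ y hy).rep F = 0 := by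
    intro y hy
    obtain ⟨a, ha⟩ := Projectivization.exists_smul_eq_mk_rep ℂ y hy
    rw [← ha, heval, heval]
    have : (a • y) p * (a • y) q * (a • y) r - (a • y) c ^ 3 =
        (a : ℂ) ^ 3 * (y p * y q * y r - y c ^ 3) := by
      simp only [Pi.smul_apply, Units.smul_def, smul_eq_mul]
      ring
    rw [this]
    constructor
    · intro h; rw [h, mul_zero]
    · intro h
      rcases mul_eq_zero.mp h with h | h
      · exact absurd (eq_zero_of_pow_eq_zero h) a.ne_zero
      · exact h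
  have h0 := hmem 3 F hhom (by
    rintro Q ⟨y, hy, rfl, x, hx⟩
    rw [← hscale, heval, hx p hp, hx q hq, hx r hr, hx c hc]
    unfold monVal
    simp only [Fin.prod_univ_three]
    have e0 := he 0
    have e1 := he 1
    have e2 := he 2
    have : ∀ i, x i ^ expo p i * x i ^ expo q i * x i ^ expo r i = (x i ^ expo c i) ^ 3 := by
      intro i
      rw [← pow_add, ← pow_add, he i, ← pow_mul, mul_comm]
    have t0 := this 0
    have t1 := this 1
    have t2 := this 2
    rw [mul_pow, mul_pow, ← t0, ← t1, ← t2]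
    ring)
  rw [← hscale, heval] at h0
  exact sub_eq_zero.mp h0

theorem strict {i : ℕ} (h8 : 8 ≤ i) (h17 : i ≤ 17) : ¬ cone (i + 1) ⊆ cone i := by
  intro hsub
  have hn : i - 8 < 10 := by omega
  set D := cert ⟨i - 8, hn⟩ with hD
  have hv : D.Valid := cert_valid _
  have hp : (D.p : ℕ) = i + 3 := by
    rw [hD, cert_p]
    simp only
    omega
  have hj : jOf i + 1 = (D.p : ℕ) := by
    rw [hp]
    unfold jOf
    split_ifs <;> omega
  have hj1 : jOf (i + 1) = (D.p : ℕ) := by
    rw [hp]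
    unfold jOf
    split_ifs <;> omega
  have hmem : gramForm D.gram ∈ cone (i + 1) := by
    refine ⟨gramForm_isHomogeneous _, D.gram, D.gram_isSymm, rfl, ?_⟩
    intro z hz hV
    rw [D.quad_gram]
    apply amgm
    unfold V at hV
    rw [H_eq, hj1] at hV
    obtain ⟨h1, h2, h3, _⟩ := hv.2.2.2.1
    have := cubic_relation (le_refl _) (Fin.lt_def.mp h1).le (Fin.lt_def.mp h2).le
      (Fin.lt_def.mp h3).le hv.2.2.1 _ hz hV
    exact_mod_cast this
  obtain ⟨_, A, hA, hAf, hq⟩ := hsub hmem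
  exact not_good hv hj hA (good_of_cone hq) hAf

theorem strict_iff {i : ℕ} (h17 : i ≤ 17) : cone i ⊂ cone (i + 1) ↔ 8 ≤ i := by
  constructor
  · intro h
    by_contra hlt
    push Not at hlt
    apply h.2
    calc cone (i + 1) ⊆ cone 8 := cone_mono (by omega)
      _ ⊆ cone 0 := cone_eight_subset
      _ ⊆ cone i := cone_mono (by omega)
  · intro h
    exact ⟨cone_mono (by omega), strict h h17⟩

end Pool.Agent.Lib.MP_646cd9_ag
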