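import Pool.Agent.Lib.MP_646cd9_ag.Collapse

/-!
# Forms separating the cones `C_8 ⊊ C_9 ⊊ … ⊊ C_18`
-/

namespace Pool.Agent.Lib.MP_646cd9_ag

open Polynomial

/-- weight of the `l`-th monomial -/
def wt (w : Fin 3 → ℕ) (l : Fin 21) : ℕ := w 0 * expo l 0 + w 1 * expo l 1 + w 2 * expo l 2

/-- Combinatorial data: a lattice triangle with vertices `p, q, r` and one further lattice point
`c`, its centroid, together with three half planes cutting it out. -/
structure Cert where
  p : Fin 21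
  q : Fin 21
  r : Fin 21
  c : Fin 21
  w : Fin 3 → Fin 3 → ℕ
  h : Fin 3 → ℕ

/-- membership in the four lattice points -/
def Cert.mem (D : Cert) (l : Fin 21) : Prop := l = D.p ∨ l = D.q ∨ l = D.r ∨ l = D.c

instance (D : Cert) (l : Fin 21) : Decidable (D.mem l) := by unfold Cert.mem; infer_instance

/-- validity of the data -/
def Cert.Valid (D : Cert) : Prop :=
  (∀ e, wt (D.w e) D.p ≤ D.h e ∧ wt (D.w e) D.q ≤ D.h e ∧ wt (D.w e) D.r ≤ D.h e) ∧
  (∀ l : Fin 21, (∀ e, wt (D.w e) l ≤ D.h e) → D.mem l) ∧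
  (∀ i, expo D.p i + expo D.q i + expo D.r i = 3 * expo D.c i) ∧
  (D.q < D.p ∧ D.r < D.p ∧ D.c < D.p ∧ D.q ≠ D.r ∧ D.q ≠ D.c ∧ D.r ≠ D.c) ∧
  (∀ k l : Fin 21, D.mem k → D.mem l → k ≠ l →
    (expo k 1 + expo l 1) % 2 = 1 ∨ (expo k 2 + expo l 2) % 2 = 1)

instance (D : Cert) : Decidable D.Valid := by unfold Cert.Valid; infer_instance

/-- the ten certificates -/
def cert : Fin 10 → Cert :=
  ![⟨11, 1, 8, 7, ![![2, 0, 1], ![1, 2, 0], ![0, 1, 2]], ![8, 6, 4]⟩,
    ⟨12, 8, 0, 7, ![![0, 1, 1], ![2, 3, 0], ![2, 0, 3]], ![3, 10, 10]⟩,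
    ⟨13, 9, 1, 8, ![![0, 1, 1], ![2, 3, 0], ![2, 0, 3]], ![4, 11, 8]⟩,
    ⟨14, 10, 2, 9, ![![0, 1, 1], ![2, 3, 0], ![2, 0, 3]], ![5, 12, 6]⟩,
    ⟨15, 7, 13, 12, ![![2, 0, 1], ![1, 2, 0], ![0, 1, 2]], ![7, 5, 6]⟩,
    ⟨16, 13, 6, 12, ![![0, 1, 1], ![2, 3, 0], ![2, 0, 3]], ![4, 8, 11]⟩,
    ⟨17, 14, 7, 13, ![![0, 1, 1], ![2, 3, 0], ![2, 0, 3]], ![5, 9, 9]⟩,
    ⟨18, 12, 17, 16, ![![2, 0, 1], ![1, 2, 0], ![0, 1, 2]], ![6, 4, 8]⟩,
    ⟨19, 17, 11, 16, ![![0, 1, 1], ![2, 3, 0], ![2, 0, 3]], ![5, 6, 12]⟩,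
    ⟨20, 12, 13, 16, ![![3, 0, 2], ![1, 1, 0], ![0, 3, 2]], ![10, 3, 10]⟩]

theorem cert_valid : ∀ n, (cert n).Valid := by decide

theorem cert_p : ∀ n, ((cert n).p : ℕ) = n + 11 := by decide

/-- Gram matrix of `m_p² + m_q² + m_r² - 3 m_c²` -/
def Cert.gram (D : Cert) : Matrix (Fin 21) (Fin 21) ℝ :=
  Matrix.diagonal fun l =>
    (if l = D.p then 1 else 0) + (if l = D.q then 1 else 0) + (if l = D.r then 1 else 0)
      - (if l = D.c then 3 else 0)

theorem Cert.gram_isSymm (D : Cert) : D.gram.IsSymm := Matrix.isSymm_diagonal _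

theorem Cert.quad_gram (D : Cert) (z : Fin 21 → ℝ) :
    quad D.gram z = z D.p ^ 2 + z D.q ^ 2 + z D.r ^ 2 - 3 * z D.c ^ 2 := by
  unfold quad Cert.gram
  simp only [Matrix.diagonal_apply, ite_mul, zero_mul, Finset.sum_ite_eq, Finset.mem_univ, if_true,
    add_mul, sub_mul, one_mul, Finset.sum_add_distrib, Finset.sum_sub_distrib, Finset.sum_ite_eq']
  ring

theorem monVal_weight (s : ℝ) (w : Fin 3 → ℕ) (x : Fin 3 → ℝ) (l : Fin 21) :
    monVal (fun i => s ^ w i * x i) l = s ^ wt w l * monVal x l := by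
  unfold monVal wt
  simp only [Fin.prod_univ_three, mul_pow]
  rw [pow_add, pow_add, pow_mul, pow_mul, pow_mul]
  ring

theorem Cert.wt_c {D : Cert} (hv : D.Valid) (e : Fin 3) : wt (D.w e) D.c ≤ D.h e := by
  obtain ⟨h1, _, h3, _⟩ := hv
  obtain ⟨a, b, c⟩ := h1 e
  unfold wt at *
  have g0 := h3 0
  have g1 := h3 1
  have g2 := h3 2
  have : 3 * (D.w e 0 * expo D.c 0 + D.w e 1 * expo D.c 1 + D.w e 2 * expo D.c 2) =
    (D.w e 0 * expo D.p 0 + D.w e 1 * expo D.p 1 + D.w e 2 * expo D.p 2) +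
    (D.w e 0 * expo D.q 0 + D.w e 1 * expo D.q 1 + D.w e 2 * expo D.q 2) +
    (D.w e 0 * expo D.r 0 + D.w e 1 * expo D.r 1 + D.w e 2 * expo D.r 2) := by
    have : 3 * (D.w e 0 * expo D.c 0 + D.w e 1 * expo D.c 1 + D.w e 2 * expo D.c 2) =
      D.w e 0 * (3 * expo D.c 0) + D.w e 1 * (3 * expo D.c 1) + D.w e 2 * (3 * expo D.c 2) := by
      ring
    rw [this, ← g0, ← g1, ← g2]
    ring
  omega


theorem weighted_vanish {D : Cert} (hv : D.Valid) {lam : Fin 21 → ℝ} {K : ℝ}
    (hle : ∀ x : Fin 3 → ℝ, (∑ l, lam l * monVal x l) ^ 2 ≤ quad D.gram (monVal x) * K)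
    (e : Fin 3) (l : Fin 21) (hl : D.h e < wt (D.w e) l) : lam l = 0 := by
  set M := wt (D.w e) l with hM
  have key : (fun k => if wt (D.w e) k = M then lam k else 0) = 0 := by
    apply mon_indep
    intro x
    set P : ℝ[X] := ∑ k, C (lam k * monVal x k) * X ^ wt (D.w e) k with hP
    set F : ℝ[X] := (C (monVal x D.p ^ 2) * X ^ (2 * wt (D.w e) D.p) +
      C (monVal x D.q ^ 2) * X ^ (2 * wt (D.w e) D.q) +
      C (monVal x D.r ^ 2) * X ^ (2 * wt (D.w e) D.r) -
      C (3 * monVal x D.c ^ 2) * X ^ (2 * wt (D.w e) D.c)) * C K with hF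
    have h1 : ∀ s : ℝ, (P.eval s) ^ 2 ≤ F.eval s := by
      intro s
      have := hle (fun i => s ^ (D.w e) i * x i)
      simp only [monVal_weight, D.quad_gram] at this
      have e1 : P.eval s = ∑ l, lam l * (s ^ wt (D.w e) l * monVal x l) := by
        simp only [hP, eval_finsetSum, eval_mul, eval_C, eval_pow, eval_X]
        apply Finset.sum_congr rfl
        intro k _
        ring
      have e2 : F.eval s = ((s ^ wt (D.w e) D.p * monVal x D.p) ^ 2 +
          (s ^ wt (D.w e) D.q * monVal x D.q) ^ 2 + (s ^ wt (D.w e) D.r * monVal x D.r) ^ 2 -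
          3 * (s ^ wt (D.w e) D.c * monVal x D.c) ^ 2) * K := by
        simp only [hF, eval_mul, eval_C, eval_pow, eval_X, eval_add, eval_sub]
        ring
      rw [e1, e2]
      exact this
    have h2 : F.natDegree ≤ 2 * D.h e := by
      have hc := D.wt_c hv e
      obtain ⟨ha, hb, hr⟩ := hv.1 e
      rw [hF]
      apply (natDegree_mul_C_le _ _).trans
      apply (natDegree_sub_le _ _).trans
      apply max_le
      · apply (natDegree_add_le _ _).trans
        apply max_le
        · apply (natDegree_add_le _ _).trans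
          apply max_le
          · exact (natDegree_C_mul_X_pow_le _ _).trans (by omega)
          · exact (natDegree_C_mul_X_pow_le _ _).trans (by omega)
        · exact (natDegree_C_mul_X_pow_le _ _).trans (by omega)
      · exact (natDegree_C_mul_X_pow_le _ _).trans (by omega)
    have h3 : P.natDegree ≤ D.h e := natDegree_le_of_sq_le h1 h2
    have h4 : P.coeff M = 0 := coeff_eq_zero_of_natDegree_lt (by omega)
    rw [hP, finsetSum_coeff] at h4
    simp only [coeff_C_mul, coeff_X_pow] at h4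
    refine Eq.trans ?_ h4
    apply Finset.sum_congr rfl
    intro k _
    by_cases hk : wt (D.w e) k = M
    · rw [if_pos hk, if_pos hk.symm, mul_one]
    · rw [if_neg hk, if_neg (fun h => hk h.symm), zero_mul, mul_zero]
  have := congrFun key l
  simpa [hM] using this

theorem vanish {D : Cert} (hv : D.Valid) {lam : Fin 21 → ℝ} {K : ℝ}
    (hle : ∀ x : Fin 3 → ℝ, (∑ l, lam l * monVal x l) ^ 2 ≤ quad D.gram (monVal x) * K)
    (l : Fin 21) : lam l = 0 := by
  have hoff : ∀ l, ¬ D.mem l → lam l = 0 := by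
    intro l hl
    have h2 := hv.2.1 l
    have : ∃ e, D.h e < wt (D.w e) l := by
      by_contra hcon
      push Not at hcon
      exact hl (h2 hcon)
    obtain ⟨e, he⟩ := this
    exact weighted_vanish hv hle e l he
  by_cases hl : D.mem l
  swap
  · exact hoff l hl
  have hm : ∀ (a b : ℝ) (k : Fin 21), monVal ![1, a, b] k = a ^ expo k 1 * b ^ expo k 2 := by
    intro a b k
    simp [monVal, Fin.prod_univ_three]
  have hz : ∀ a b : ℝ, a ^ 2 = 1 → b ^ 2 = 1 → ∑ k, lam k * (a ^ expo k 1 * b ^ expo k 2) = 0 := by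
    intro a b ha hb
    have h1 := hle ![1, a, b]
    rw [D.quad_gram] at h1
    simp only [hm] at h1
    have h2 : ∀ k : Fin 21, (a ^ expo k 1 * b ^ expo k 2) ^ 2 = 1 := by
      intro k
      rw [mul_pow, ← pow_mul, ← pow_mul, mul_comm _ 2, mul_comm _ 2, pow_mul, pow_mul, ha, hb]
      simp
    rw [h2, h2, h2, h2] at h1
    have h3 : (∑ k, lam k * (a ^ expo k 1 * b ^ expo k 2)) ^ 2 ≤ 0 := by
      apply h1.trans
      norm_num
    nlinarith [sq_nonneg (∑ k, lam k * (a ^ expo k 1 * b ^ expo k 2))]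
  have key : ∑ k, lam k * ((1 + (-1) ^ (expo l 1 + expo k 1)) * (1 + (-1) ^ (expo l 2 + expo k 2)))
      = 0 := by
    have g1 := hz 1 1 (by norm_num) (by norm_num)
    have g2 := hz (-1) 1 (by norm_num) (by norm_num)
    have g3 := hz 1 (-1) (by norm_num) (by norm_num)
    have g4 := hz (-1) (-1) (by norm_num) (by norm_num)
    have : ∑ k, lam k * ((1 + (-1) ^ (expo l 1 + expo k 1)) * (1 + (-1) ^ (expo l 2 + expo k 2)))
      = ∑ k, lam k * (1 ^ expo k 1 * 1 ^ expo k 2) +
        (-1) ^ (expo l 1) * ∑ k, lam k * ((-1) ^ expo k 1 * 1 ^ expo k 2) +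
        (-1) ^ (expo l 2) * ∑ k, lam k * (1 ^ expo k 1 * (-1) ^ expo k 2) +
        (-1) ^ (expo l 1) * (-1) ^ (expo l 2) *
          ∑ k, lam k * ((-1) ^ expo k 1 * (-1) ^ expo k 2) := by
      simp only [Finset.mul_sum, ← Finset.sum_add_distrib]
      apply Finset.sum_congr rfl
      intro k _
      rw [pow_add, pow_add]
      ring
    rw [this, g1, g2, g3, g4]
    ring
  rw [Finset.sum_eq_single l] at key
  · rw [← two_mul, ← two_mul, pow_mul, pow_mul] at key
    norm_num at key
    exact key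
  · intro k _ hk
    by_cases hkm : D.mem k
    · rcases hv.2.2.2.2 l k hl hkm (Ne.symm hk) with h | h
      · have : (-1 : ℝ) ^ (expo l 1 + expo k 1) = -1 := by
          rw [Odd.neg_one_pow]
          exact Nat.odd_iff.mpr h
        rw [this]
        ring
      · have : (-1 : ℝ) ^ (expo l 2 + expo k 2) = -1 := by
          rw [Odd.neg_one_pow]
          exact Nat.odd_iff.mpr h
        rw [this]
        ring
    · rw [hoff k hkm, zero_mul]
  · simp

theorem order_add : ∀ n k l : Fin 21, k < n → l < n →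
    ¬ (∀ i, expo k i + expo l i = 2 * expo n i) := by decide

/-- Key non-membership: the separating form has no Gram matrix which is nonnegative above `T_j`
for `j < p`. -/
theorem not_good {D : Cert} (hv : D.Valid) {j : ℕ} (hj : j + 1 = (D.p : ℕ))
    {A : Matrix (Fin 21) (Fin 21) ℝ} (hA : A.IsSymm) (hg : Good j A)
    (hf : gramForm A = gramForm D.gram) : False := by
  have hq : ∀ x, quad A (monVal x) = quad D.gram (monVal x) := by
    intro x
    rw [← eval_gramForm, ← eval_gramForm, hf]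
  have hrow : ∀ n : Fin 21, j < (n : ℕ) → ∀ l, A n l = 0 := by
    intro n hn l
    apply vanish hv (lam := A n) (K := A n n)
    intro x
    rw [← hq]
    exact hg.lin_sq_le hA hn (fun _ _ => rfl)
  -- coefficient at `2 α_p`
  have hco := congrArg (MvPolynomial.coeff (fexp D.p + fexp D.p)) hf
  have hmm : ∀ (B : Matrix (Fin 21) (Fin 21) ℝ), MvPolynomial.coeff (fexp D.p + fexp D.p)
      (gramForm B) = ∑ k, ∑ l, if fexp k + fexp l = fexp D.p + fexp D.p then B k l else 0 := by
    intro B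
    unfold gramForm
    simp only [monVal_X, MvPolynomial.C_mul_monomial, MvPolynomial.monomial_mul, mul_one,
      MvPolynomial.coeff_sum, MvPolynomial.coeff_monomial]
  rw [hmm, hmm] at hco
  have hleft : ∑ k, ∑ l, (if fexp k + fexp l = fexp D.p + fexp D.p then A k l else 0) = 0 := by
    apply Finset.sum_eq_zero
    intro k _
    apply Finset.sum_eq_zero
    intro l _
    by_cases hk : j < (k : ℕ)
    · rw [hrow k hk l]; simp
    by_cases hl : j < (l : ℕ)
    · rw [← hA.apply, hrow l hl k]; simp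
    rw [if_neg]
    intro h
    apply order_add D.p k l (Fin.lt_def.mpr (by omega)) (Fin.lt_def.mpr (by omega))
    intro i
    have := DFunLike.congr_fun h i
    simp only [Finsupp.add_apply, fexp_apply] at this
    omega
  have hright : ∑ k, ∑ l, (if fexp k + fexp l = fexp D.p + fexp D.p then D.gram k l else 0) = 1 := by
    rw [Finset.sum_eq_single D.p]
    · rw [Finset.sum_eq_single D.p]
      · obtain ⟨h1, h2, h3, _⟩ := hv.2.2.2.1
        simp [Cert.gram, h1.ne', h2.ne', h3.ne']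
      · intro l _ hl
        rw [if_neg]
        intro h
        exact hl (fexp_injective (add_left_cancel h))
      · simp
    · intro k _ hk
      apply Finset.sum_eq_zero
      intro l _
      by_cases h : fexp k + fexp l = fexp D.p + fexp D.p
      · rw [if_pos h]
        unfold Cert.gram
        rw [Matrix.diagonal_apply]
        rw [if_neg]
        rintro rfl
        apply hk
        apply fexp_injective
        ext i
        have := DFunLike.congr_fun h i
        simp only [Finsupp.add_apply] at this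
        omega
      · rw [if_neg h]
    · simp
  rw [hleft, hright] at hco
  norm_num at hco

end Pool.Agent.Lib.MP_646cd9_ag
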